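import Pool.Agent.Y775.CC.Ring
set_option autoImplicit false

/-!
The coordinate rings of the product of the curves `C_F : z² - F(x) z + 1 = 0` and
`C_G : w² - G(y) w + 1 = 0`, and of the open part `F(x) ≠ G(y)` of the product.
-/

namespace Pool.Agent.Q212.DC

open Polynomial

open Pool.Agent.Y775.CC (CRing cp cc cx cz cp_eq cz_eq evC evC_cc evC_cx evC_cz evC_comp hom_ext
  isDomain_CRing cp_injective cc_injective)

section ring

variable {K : Type*} [Field K] (F G : K[X])

/-- The polynomial `G` over the coordinate ring of `C_F`. -/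
noncomputable def GF : (CRing F)[X] := G.map (cc F)

/-- The coordinate ring of `C_F × C_G`: the coordinate ring of the curve `w² - G(y) w + 1 = 0` over
the coordinate ring of the curve `z² - F(x) z + 1 = 0`. -/
def SRing : Type _ := CRing (GF F G)

noncomputable instance : CommRing (SRing F G) := inferInstanceAs (CommRing (CRing (GF F G)))

/-- The functions on the first factor. -/
noncomputable def fst : CRing F →+* SRing F G := cc (GF F G)

/-- The constants. -/
noncomputable def sk : K →+* SRing F G := (fst F G).comp (cc F)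

theorem GF_eval₂ {S : Type*} [CommRing S] (k : CRing F →+* S) (y : S) :
    (GF F G).eval₂ k y = G.eval₂ (k.comp (cc F)) y := by
  unfold GF
  rw [Polynomial.eval₂_map]

/-- The coordinate `y`. -/
noncomputable def cy : SRing F G := cx (GF F G)

/-- The coordinate `w`. -/
noncomputable def cw : SRing F G := cz (GF F G)

theorem sk_eqn : cw F G ^ 2 - G.eval₂ (sk F G) (cy F G) * cw F G + 1 = 0 := by
  have h := cz_eq (GF F G)
  rw [GF_eval₂] at h
  exact h

/-- The functions on the second factor. -/
noncomputable def snd : CRing G →+* SRing F G :=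
  evC (F := G) (sk F G) (cy F G) (cw F G) (sk_eqn F G)

/-- The coordinate `x`. -/
noncomputable def x1 : SRing F G := fst F G (cx F)

/-- The coordinate `z`. -/
noncomputable def z1 : SRing F G := fst F G (cz F)

/-- The coordinate `y`. -/
noncomputable def x2 : SRing F G := snd F G (cx G)

/-- The coordinate `w`. -/
noncomputable def z2 : SRing F G := snd F G (cz G)

theorem x2_eq : x2 F G = cy F G :=
  evC_cx (F := G) (sk F G) (cy F G) (cw F G) (sk_eqn F G)

theorem z2_eq : z2 F G = cw F G :=
  evC_cz (F := G) (sk F G) (cy F G) (cw F G) (sk_eqn F G)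

theorem eval_x1 (p : K[X]) : p.eval₂ (sk F G) (x1 F G) = fst F G (cp F p) := by
  rw [cp_eq, Polynomial.hom_eval₂]
  rfl

theorem snd_cc (a : K) : snd F G (cc G a) = sk F G a :=
  evC_cc (F := G) (sk F G) (cy F G) (cw F G) (sk_eqn F G) a

theorem snd_comp : (snd F G).comp (cc G) = sk F G := RingHom.ext fun a => snd_cc F G a

theorem eval_x2 (p : K[X]) : p.eval₂ (sk F G) (x2 F G) = snd F G (cp G p) := by
  rw [cp_eq, Polynomial.hom_eval₂, snd_comp]
  rfl

theorem z1_eqn : z1 F G ^ 2 - F.eval₂ (sk F G) (x1 F G) * z1 F G + 1 = 0 := by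
  have h := congrArg (fst F G) (cz_eq F)
  rw [← cp_eq] at h
  simp only [map_add, map_sub, map_mul, map_pow, map_one, map_zero] at h
  rw [eval_x1]
  exact h

theorem z2_eqn : z2 F G ^ 2 - G.eval₂ (sk F G) (x2 F G) * z2 F G + 1 = 0 := by
  have h := congrArg (snd F G) (cz_eq G)
  rw [← cp_eq] at h
  simp only [map_add, map_sub, map_mul, map_pow, map_one, map_zero] at h
  rw [eval_x2]
  exact h

/-- The function `F(x) - G(y)`. -/
noncomputable def sdel : SRing F G := F.eval₂ (sk F G) (x1 F G) - G.eval₂ (sk F G) (x2 F G)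

/-- The coordinate ring of the open part `F(x) ≠ G(y)` of `C_F × C_G`. -/
def ORing : Type _ := Localization.Away (sdel F G)

noncomputable instance : CommRing (ORing F G) :=
  OreLocalization.instCommRing (R := SRing F G) (S := Submonoid.powers (sdel F G))

noncomputable instance : Algebra (SRing F G) (ORing F G) :=
  OreLocalization.instAlgebra (R := SRing F G) (S := Submonoid.powers (sdel F G))
    (R₀ := SRing F G)

instance : IsLocalization.Away (sdel F G) (ORing F G) :=
  inferInstanceAs (IsLocalization.Away (sdel F G) (Localization.Away (sdel F G)))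

/-- The restriction of functions to the open part. -/
noncomputable def toO : SRing F G →+* ORing F G := algebraMap (SRing F G) (ORing F G)

theorem isUnit_sdel : IsUnit (toO F G (sdel F G)) :=
  IsLocalization.Away.algebraMap_isUnit (sdel F G)

theorem isUnit_z1 : IsUnit (toO F G (z1 F G)) := by
  refine IsUnit.map _ (IsUnit.of_mul_eq_one (F.eval₂ (sk F G) (x1 F G) - z1 F G) ?_)
  linear_combination -(z1_eqn F G)

theorem isUnit_z2 : IsUnit (toO F G (z2 F G)) := by
  refine IsUnit.map _ (IsUnit.of_mul_eq_one (G.eval₂ (sk F G) (x2 F G) - z2 F G) ?_)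
  linear_combination -(z2_eqn F G)

/-- The polynomial `F(X) - G(Y)`, as a polynomial in `X` over the polynomials in `Y`. -/
noncomputable def dif : K[X][X] := F.map C - C G

/-- The value of a polynomial in `X` over the polynomials in `Y` at `X = x`, `Y = y`. -/
noncomputable def ev2 {S : Type*} [CommRing S] (k : K →+* S) (x y : S) (R : K[X][X]) : S :=
  R.eval₂ (Polynomial.eval₂RingHom k y) x

theorem ev2_mul {S : Type*} [CommRing S] (k : K →+* S) (x y : S) (R T : K[X][X]) :
    ev2 k x y (R * T) = ev2 k x y R * ev2 k x y T := Polynomial.eval₂_mul _ _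

theorem ev2_prod {S : Type*} [CommRing S] (k : K →+* S) (x y : S) {ι : Type*} (s : Finset ι)
    (R : ι → K[X][X]) : ev2 k x y (∏ i ∈ s, R i) = ∏ i ∈ s, ev2 k x y (R i) :=
  Polynomial.eval₂_finsetProd _ _ _ _

theorem ev2_dif {S : Type*} [CommRing S] (k : K →+* S) (x y : S) :
    ev2 k x y (dif F G) = F.eval₂ k x - G.eval₂ k y := by
  unfold ev2 dif
  rw [Polynomial.eval₂_sub, Polynomial.eval₂_C, Polynomial.eval₂_map]
  congr 2
  ext a
  simp

theorem map_ev2 {S T : Type*} [CommRing S] [CommRing T] (f : S →+* T) (k : K →+* S) (x y : S)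
    (R : K[X][X]) : f (ev2 k x y R) = ev2 (f.comp k) (f x) (f y) R := by
  unfold ev2
  rw [Polynomial.hom_eval₂]
  congr 1
  refine Polynomial.ringHom_ext (fun a => ?_) ?_
  · simp
  · simp

/-- The function `R(x, y)` on `C_F × C_G`. -/
noncomputable def rv (R : K[X][X]) : SRing F G := ev2 (sk F G) (x1 F G) (x2 F G) R

variable {F G}

theorem rv_dvd {R : K[X][X]} (h : R ∣ dif F G) : rv F G R ∣ sdel F G := by
  obtain ⟨T, hT⟩ := h
  refine ⟨rv F G T, ?_⟩
  unfold rv sdel
  rw [← ev2_mul, ← hT, ev2_dif]

theorem isUnit_rv {R : K[X][X]} (h : R ∣ dif F G) : IsUnit (toO F G (rv F G R)) :=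
  isUnit_of_dvd_unit (map_dvd _ (rv_dvd h)) (isUnit_sdel F G)

/-- The entries of the symbol `{R(x, y), z, w}`, for a divisor `R` of `F(X) - G(Y)`. -/
noncomputable def ent {R : K[X][X]} (h : R ∣ dif F G) : Fin 3 → (ORing F G)ˣ :=
  Fin.cons (isUnit_rv h).unit ![(isUnit_z1 F G).unit, (isUnit_z2 F G).unit]

end ring

section ev

variable {K : Type*} [Field K] {F G : K[X]} {S : Type*} [CommRing S]

theorem evS_eqn (k : K →+* S) (x z y w : S) (h : z ^ 2 - F.eval₂ k x * z + 1 = 0)
    (h' : w ^ 2 - G.eval₂ k y * w + 1 = 0) :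
    w ^ 2 - (GF F G).eval₂ (evC k x z h) y * w + 1 = 0 := by
  rw [GF_eval₂, evC_comp]
  exact h'

/-- The homomorphism on the coordinate ring of `C_F × C_G` defined by a point of `C_F` and a point
of `C_G`. -/
noncomputable def evS (k : K →+* S) (x z y w : S) (h : z ^ 2 - F.eval₂ k x * z + 1 = 0)
    (h' : w ^ 2 - G.eval₂ k y * w + 1 = 0) : SRing F G →+* S :=
  evC (F := GF F G) (evC k x z h) y w (evS_eqn k x z y w h h')

variable (k : K →+* S) (x z y w : S) (h : z ^ 2 - F.eval₂ k x * z + 1 = 0)
    (h' : w ^ 2 - G.eval₂ k y * w + 1 = 0)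

theorem evS_fst (r : CRing F) : evS k x z y w h h' (fst F G r) = evC k x z h r :=
  evC_cc (F := GF F G) (evC k x z h) y w (evS_eqn k x z y w h h') r

theorem evS_sk (a : K) : evS k x z y w h h' (sk F G a) = k a :=
  (evS_fst k x z y w h h' (cc F a)).trans (evC_cc k x z h a)

theorem evS_cx : evS k x z y w h h' (cy F G) = y :=
  evC_cx (F := GF F G) (evC k x z h) y w (evS_eqn k x z y w h h')

theorem evS_cz : evS k x z y w h h' (cw F G) = w :=
  evC_cz (F := GF F G) (evC k x z h) y w (evS_eqn k x z y w h h')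

theorem evS_snd (r : CRing G) : evS k x z y w h h' (snd F G r) = evC k y w h' r := by
  have e : (evS k x z y w h h').comp (snd F G) = evC k y w h' := by
    refine hom_ext (fun a => ?_) ?_ ?_
    · rw [evC_cc, RingHom.comp_apply, snd_cc, evS_sk]
    · have h1 : snd F G (cx G) = cy F G := x2_eq F G
      rw [evC_cx, RingHom.comp_apply, h1, evS_cx]
    · have h1 : snd F G (cz G) = cw F G := z2_eq F G
      rw [evC_cz, RingHom.comp_apply, h1, evS_cz]
  rw [← RingHom.comp_apply, e]

theorem evS_x1 : evS k x z y w h h' (x1 F G) = x := by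
  unfold x1
  rw [evS_fst, evC_cx]

theorem evS_z1 : evS k x z y w h h' (z1 F G) = z := by
  unfold z1
  rw [evS_fst, evC_cz]

theorem evS_x2 : evS k x z y w h h' (x2 F G) = y := by
  unfold x2
  rw [evS_snd, evC_cx]

theorem evS_z2 : evS k x z y w h h' (z2 F G) = w := by
  unfold z2
  rw [evS_snd, evC_cz]

theorem evS_comp_sk : (evS k x z y w h h').comp (sk F G) = k :=
  RingHom.ext fun a => evS_sk k x z y w h h' a

theorem evS_rv (R : K[X][X]) : evS k x z y w h h' (rv F G R) = ev2 k x y R := by
  unfold rv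
  rw [map_ev2, evS_comp_sk, evS_x1, evS_x2]

theorem evS_sdel : evS k x z y w h h' (sdel F G) = F.eval₂ k x - G.eval₂ k y := by
  unfold sdel
  rw [map_sub, Polynomial.hom_eval₂, Polynomial.hom_eval₂, evS_x1, evS_x2, evS_comp_sk]

end ev

section domain

variable {K : Type*} [Field K] {F G : K[X]}

theorem natDegree_GF : (GF F G).natDegree = G.natDegree :=
  natDegree_map_eq_of_injective (cc_injective F) G

theorem isDomain_SRing (hF : 0 < F.natDegree) (hG : 0 < G.natDegree) : IsDomain (SRing F G) := by
  have : IsDomain (CRing F) := isDomain_CRing hF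
  exact isDomain_CRing (F := GF F G) (by rw [natDegree_GF]; exact hG)

theorem sdel_ne_zero (hF : 0 < F.natDegree) (hG : 0 < G.natDegree) : sdel F G ≠ 0 := by
  have : IsDomain (CRing F) := isDomain_CRing hF
  have e : sdel F G = (cp (GF F G) (C (cp F F) - GF F G) : CRing (GF F G)) := by
    unfold sdel
    rw [map_sub, eval_x1, x2_eq]
    have h1 : G.eval₂ (sk F G) (cy F G) = (cp (GF F G) (GF F G) : CRing (GF F G)) := by
      rw [cp_eq, GF_eval₂]
      rfl
    rw [h1]
    rfl
  intro h0
  have h0' : (cp (GF F G) (C (cp F F) - GF F G) : CRing (GF F G)) = 0 := e.symm.trans h0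
  rw [map_eq_zero_iff _ (cp_injective (GF F G)), sub_eq_zero] at h0'
  have h1 := congrArg natDegree h0'
  rw [natDegree_C, natDegree_GF] at h1
  omega

end domain

end Pool.Agent.Q212.DC
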