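import Pool.Agent.Q212.DC.Top
import Pool.Agent.Q212.DC.Ring
import Pool.Agent.Y775.CC.Branch
set_option autoImplicit false

/-!
The factors of `F(X) - G(Y)` and the branches of the inverses of `F` and `G`.
-/

namespace Pool.Agent.Q212.DC

open Polynomial Filter Topology

open Pool.Agent.Y775.CC (Branches)

theorem branches_mono {G : ℂ[X]} {n : ℕ} {V W : Set ℂ} {φ : Fin n → ℂ → ℂ} (H : Branches G V φ)
    (hW : IsOpen W) (hc : Convex ℝ W) (hm : ∀ t : ℝ, |t| ≤ 2 → (t : ℂ) ∈ W) (h : W ⊆ V) :
    Branches G W φ where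
  isOpen := hW
  convex := hc
  mem := hm
  hasDeriv i u hu := H.hasDeriv i u (h hu)
  inj u hu := H.inj u (h hu)
  prod u hu := H.prod u (h hu)

section spec

variable {K : Type*} [Field K] (s : K →+* ℂ)

/-- The polynomial `R(x, Y)`. -/
noncomputable def rY (x : ℂ) : K[X][X] →+* ℂ[X] := eval₂RingHom (mapRingHom s) (C x)

theorem rY_eval (x y : ℂ) (R : K[X][X]) : (rY s x R).eval y = ev2 s x y R := by
  unfold rY ev2
  rw [coe_eval₂RingHom, ← coe_evalRingHom, Polynomial.hom_eval₂]
  have e : (evalRingHom y).comp (mapRingHom s) = eval₂RingHom s y := by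
    refine Polynomial.ringHom_ext (fun a => ?_) ?_
    · simp
    · simp
  rw [e, coe_evalRingHom, eval_C]

theorem rY_dif (x : ℂ) (F G : K[X]) : rY s x (dif F G) = C (F.eval₂ s x) - G.map s := by
  refine Polynomial.funext fun y => ?_
  rw [rY_eval, ev2_dif, eval_sub, eval_C, eval_map]

theorem ev2_eq_sum {S : Type*} [CommRing S] (k : K →+* S) (x y : S) (R : K[X][X]) :
    ev2 k x y R = ∑ i ∈ Finset.range (R.natDegree + 1),
      (∑ j ∈ Finset.range ((R.coeff i).natDegree + 1), k ((R.coeff i).coeff j) * y ^ j) *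
        x ^ i := by
  unfold ev2
  rw [Polynomial.eval₂_eq_sum_range]
  refine Finset.sum_congr rfl fun i _ => ?_
  rw [coe_eval₂RingHom, Polynomial.eval₂_eq_sum_range]

theorem rY_coeff (x : ℂ) (R : K[X][X]) (j : ℕ) :
    (rY s x R).coeff j = ∑ i ∈ Finset.range (R.natDegree + 1), s ((R.coeff i).coeff j) * x ^ i := by
  unfold rY
  rw [coe_eval₂RingHom, Polynomial.eval₂_eq_sum_range, finsetSum_coeff]
  refine Finset.sum_congr rfl fun i _ => ?_
  rw [← C_pow, coeff_mul_C, coe_mapRingHom, coeff_map]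

/-- The coefficients of the monic divisors of `F(X) - G(Y)` in the highest power of `Y`. -/
theorem exists_lead {F G : K[X]} {p q d : ℕ} (hF : F.Monic) (hG : G.Monic)
    (hn : F.natDegree = q * d) (hm : G.natDegree = p * d) (hd : 0 < d) (hp : 0 < p) (hq : 0 < q)
    (hpq : Nat.Coprime p q) {R S : K[X][X]} (hR : R.Monic) (hS : S.Monic)
    (hRd : 0 < R.natDegree) (hRS : R * S = dif F G) :
    ∃ (b : ℕ) (c : ℂ), 0 < b ∧ ‖c‖ = 1 ∧ ∀ x, (rY s x R).natDegree = b ∧
      (rY s x R).leadingCoeff = c := by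
  obtain ⟨τ, hτ, hτd, hRn, hw, -, hc⟩ := exists_form hF hG hn hm hd hp hq hpq hR hS hRS
  have hτp : 0 < τ.natDegree := by
    rcases Nat.eq_zero_or_pos τ.natDegree with h | h
    · rw [h, mul_zero] at hRn
      omega
    · exact h
  have hc0 := hc 0 (Nat.zero_le _)
  rw [mul_zero, Nat.sub_zero] at hc0
  have hnorm : ‖s (τ.coeff 0)‖ = 1 := by
    have h1 : (τ.map s).Splits := IsAlgClosed.splits _
    have h2 : (τ.map s).Monic := hτ.map s
    have h3 : s (τ.coeff 0) = ((τ.map s).roots.map fun ζ => -ζ).prod := by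
      rw [← coeff_map, coeff_zero_eq_eval_zero]
      conv_lhs => rw [h1.eq_prod_roots_of_monic h2]
      rw [eval_multiset_prod, Multiset.map_map]
      congr 1
      refine Multiset.map_congr rfl fun ζ _ => ?_
      simp
    have h4 : ∀ ζ ∈ (τ.map s).roots, ‖-ζ‖ = 1 := by
      intro ζ hζ
      have h5 : τ.map s ∣ X ^ d - 1 := by
        have := Polynomial.map_dvd s hτd
        simpa using this
      have h6 : (X ^ d - 1 : ℂ[X]).eval ζ = 0 := eval_eq_zero_of_dvd_of_eval_eq_zero h5
        (isRoot_of_mem_roots hζ)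
      simp only [eval_sub, eval_pow, eval_X, eval_one] at h6
      rw [norm_neg]
      exact Complex.norm_eq_one_of_pow_eq_one (sub_eq_zero.1 h6) hd.ne'
    rw [h3]
    have h7 : ∀ t : Multiset ℂ, (∀ ζ ∈ t, ‖-ζ‖ = 1) → ‖(t.map fun ζ => -ζ).prod‖ = 1 := by
      intro t ht
      induction t using Multiset.induction_on with
      | empty => simp
      | cons ζ t ih =>
        rw [Multiset.map_cons, Multiset.prod_cons, norm_mul, ht ζ (Multiset.mem_cons_self ζ t),
          one_mul]
        exact ih fun ξ hξ => ht ξ (Multiset.mem_cons_of_mem hξ)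
    exact h7 _ h4
  refine ⟨p * τ.natDegree, s (τ.coeff 0), Nat.mul_pos hp hτp, hnorm, fun x => ?_⟩
  have h1 : (rY s x R).coeff (p * τ.natDegree) = s (τ.coeff 0) := by
    rw [rY_coeff, Finset.sum_eq_single 0]
    · rw [hc0, pow_zero, mul_one]
    · intro i _ hi
      by_cases h0 : (R.coeff i).coeff (p * τ.natDegree) = 0
      · rw [h0, map_zero, zero_mul]
      · exfalso
        have h2 := hw i _ h0
        have h3 : 0 < p * i := Nat.mul_pos hp (Nat.pos_of_ne_zero hi)
        have h4 : p * (q * τ.natDegree) = q * (p * τ.natDegree) := by ring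
        omega
    · intro h
      exact absurd (Finset.mem_range.2 (by omega)) h
  have hne : s (τ.coeff 0) ≠ 0 := by
    intro h0
    rw [h0, norm_zero] at hnorm
    exact zero_ne_one hnorm
  have h2 : (rY s x R).natDegree = p * τ.natDegree := by
    refine le_antisymm ?_ (le_natDegree_of_ne_zero (by rw [h1]; exact hne))
    rw [natDegree_le_iff_coeff_eq_zero]
    intro j hj
    rw [rY_coeff]
    refine Finset.sum_eq_zero fun i _ => ?_
    by_cases h0 : (R.coeff i).coeff j = 0
    · rw [h0, map_zero, zero_mul]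
    · exfalso
      have h2 := hw i j h0
      have h3 : q * (p * τ.natDegree) < q * j := Nat.mul_lt_mul_of_pos_left hj hq
      have h4 : p * (q * τ.natDegree) = q * (p * τ.natDegree) := by ring
      omega
  exact ⟨h2, by rw [leadingCoeff, h2, h1]⟩

end spec

section branch

variable {K : Type*} [Field K] {F G : K[X]} {s : K →+* ℂ} {n m : ℕ} {V : Set ℂ}
  {φ : Fin n → ℂ → ℂ} {ψ : Fin m → ℂ → ℂ} {ι : Type*} [Fintype ι] {R : ι → K[X][X]}

theorem zero_mem (H : Branches (F.map s) V φ) : (0 : ℂ) ∈ V := by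
  have := H.mem 0 (by norm_num)
  simpa using this

/-- On every pair of branches one of the factors vanishes. -/
theorem exists_kappa (H : Branches (F.map s) V φ) (H' : Branches (G.map s) V ψ)
    (hprod : ∏ k, R k = dif F G) (i : Fin n) (j : Fin m) :
    ∃ k, ∀ u ∈ V, ev2 s (φ i u) (ψ j u) (R k) = 0 := by
  have h0 := zero_mem H
  have hex : ∀ u ∈ V, ∃ k, ev2 s (φ i u) (ψ j u) (R k) = 0 := by
    intro u hu
    have h1 : ∏ k, ev2 s (φ i u) (ψ j u) (R k) = 0 := by
      rw [← ev2_prod, hprod, ev2_dif, ← eval_map, ← eval_map, H.eval_branch i hu,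
        H'.eval_branch j hu, sub_self]
    obtain ⟨k, -, hk⟩ := Finset.prod_eq_zero_iff.1 h1
    exact ⟨k, hk⟩
  have hfreq : ∃ k, ∃ᶠ u in 𝓝[≠] (0 : ℂ), ev2 s (φ i u) (ψ j u) (R k) = 0 := by
    by_contra hcon
    push Not at hcon
    have h1 : ∀ᶠ u in 𝓝[≠] (0 : ℂ), ∀ k, ev2 s (φ i u) (ψ j u) (R k) ≠ 0 := by
      rw [eventually_all]
      intro k
      exact not_frequently.1 (not_frequently.2 (hcon k))
    have h2 : ∀ᶠ u in 𝓝[≠] (0 : ℂ), u ∈ V := nhdsWithin_le_nhds (H.isOpen.mem_nhds h0)
    obtain ⟨u, hu1, hu2⟩ := (h1.and h2).exists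
    obtain ⟨k, hk⟩ := hex u hu2
    exact hu1 k hk
  obtain ⟨k, hk⟩ := hfreq
  refine ⟨k, fun u hu => ?_⟩
  have ha : AnalyticOnNhd ℂ (fun u => ev2 s (φ i u) (ψ j u) (R k)) V := by
    intro u hu
    have e : (fun u => ev2 s (φ i u) (ψ j u) (R k)) = fun u =>
        ∑ a ∈ Finset.range ((R k).natDegree + 1),
          (∑ b ∈ Finset.range (((R k).coeff a).natDegree + 1), s (((R k).coeff a).coeff b) *
            ψ j u ^ b) * φ i u ^ a := by
      funext u
      exact ev2_eq_sum s _ _ _
    rw [e]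
    refine Finset.analyticAt_fun_sum _ fun a _ => ?_
    refine AnalyticAt.mul ?_ ((H.analyticAt i hu).pow a)
    refine Finset.analyticAt_fun_sum _ fun b _ => ?_
    exact analyticAt_const.mul ((H'.analyticAt j hu).pow b)
  have hb : AnalyticOnNhd ℂ (fun _ : ℂ => (0 : ℂ)) V := fun u _ => analyticAt_const
  exact ha.eqOn_of_preconnected_of_frequently_eq hb H.convex.isPreconnected h0 hk hu

/-- The factors on the branches of `F`. -/
theorem exists_factor [DecidableEq ι] (H : Branches (F.map s) V φ) (H' : Branches (G.map s) V ψ)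
    (hprod : ∏ k, R k = dif F G)
    (hlead : ∀ k, ∃ (b : ℕ) (c : ℂ), 0 < b ∧ ‖c‖ = 1 ∧ ∀ x, (rY s x (R k)).natDegree = b ∧
      (rY s x (R k)).leadingCoeff = c) (i : Fin n) :
    ∃ (κ : Fin m → ι), Function.Surjective κ ∧ ∀ k, ∃ c : ℂ, ‖c‖ = 1 ∧ ∀ u ∈ V, ∀ y,
      ev2 s (φ i u) y (R k) = c * ∏ j with κ j = k, (y - ψ j u) := by
  choose κ hκ using fun j => exists_kappa H H' hprod i j
  choose b c hb hc hbc using hlead
  have key : ∀ u ∈ V, (∀ k, (Finset.univ.filter fun j => κ j = k).card = b k) ∧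
      ∀ k, rY s (φ i u) (R k) = C (c k) * ∏ j with κ j = k, (X - C (ψ j u)) := by
    intro u hu
    have hne : ∀ k, rY s (φ i u) (R k) ≠ 0 := by
      intro k h0
      have h1 := (hbc k (φ i u)).2
      rw [h0, leadingCoeff_zero] at h1
      have h2 := hc k
      rw [← h1, norm_zero] at h2
      exact zero_ne_one h2
    have hdvd : ∀ k, (∏ j with κ j = k, (X - C (ψ j u))) ∣ rY s (φ i u) (R k) := by
      intro k
      refine Finset.prod_dvd_of_coprime ?_ ?_
      · intro j _ j' _ hjj
        refine isCoprime_X_sub_C_of_isUnit_sub ?_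
        refine (sub_ne_zero.2 fun h => hjj ?_).isUnit
        exact H'.inj u hu h
      · intro j hj
        rw [dvd_iff_isRoot, IsRoot.def, rY_eval]
        have h1 := (Finset.mem_filter.1 hj).2
        rw [← h1]
        exact hκ j u hu
    have hdeg : ∀ k, (∏ j with κ j = k, (X - C (ψ j u))).natDegree =
        (Finset.univ.filter fun j => κ j = k).card := by
      intro k
      rw [natDegree_prod_of_monic _ _ fun j _ => monic_X_sub_C _]
      simp
    have hle : ∀ k, (Finset.univ.filter fun j => κ j = k).card ≤ b k := by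
      intro k
      rw [← hdeg k, ← (hbc k (φ i u)).1]
      exact natDegree_le_of_dvd (hdvd k) (hne k)
    have hsum : ∑ k, b k = m := by
      have h1 : ∏ k, rY s (φ i u) (R k) = C u - G.map s := by
        rw [← map_prod, hprod, rY_dif, ← eval_map, H.eval_branch i hu]
      have h2 : (∏ k, rY s (φ i u) (R k)).natDegree = ∑ k, b k := by
        rw [natDegree_prod _ _ fun k _ => hne k]
        exact Finset.sum_congr rfl fun k _ => (hbc k (φ i u)).1
      have h3 : (C u - G.map s : ℂ[X]) = -∏ j, (X - C (ψ j u)) := by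
        rw [← H'.prod u hu, neg_sub]
      rw [← h2, h1, h3, natDegree_neg, natDegree_prod_of_monic _ _ fun j _ => monic_X_sub_C _]
      simp
    have hsum' : ∑ k, (Finset.univ.filter fun j => κ j = k).card = m := by
      have h1 := Finset.card_eq_sum_card_fiberwise (f := κ) (s := Finset.univ)
        (t := Finset.univ) fun j _ => Finset.mem_univ _
      rw [Finset.card_univ, Fintype.card_fin] at h1
      exact h1.symm
    have hcard : ∀ k, (Finset.univ.filter fun j => κ j = k).card = b k := by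
      have h1 := (Finset.sum_eq_sum_iff_of_le fun k _ => hle k).1
        (hsum'.trans hsum.symm : ∑ k ∈ Finset.univ, _ = ∑ k ∈ Finset.univ, _)
      exact fun k => h1 k (Finset.mem_univ k)
    refine ⟨hcard, fun k => ?_⟩
    obtain ⟨T, hT⟩ := hdvd k
    have hT0 : T ≠ 0 := by
      rintro rfl
      rw [mul_zero] at hT
      exact hne k hT
    have hmon : (∏ j with κ j = k, (X - C (ψ j u))).Monic := monic_prod_of_monic _ _ fun j _ =>
      monic_X_sub_C _
    have hT1 : T.natDegree = 0 := by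
      have h1 := (hbc k (φ i u)).1
      rw [hT, hmon.natDegree_mul' hT0, hdeg, hcard] at h1
      omega
    have hT2 : T = C (c k) := by
      have h1 := (hbc k (φ i u)).2
      rw [hT, leadingCoeff_mul, hmon.leadingCoeff, one_mul] at h1
      rw [eq_C_of_natDegree_eq_zero hT1, ← h1, leadingCoeff, hT1]
    rw [hT, hT2, mul_comm]
  refine ⟨κ, ?_, fun k => ⟨c k, hc k, fun u hu y => ?_⟩⟩
  · intro k
    have h1 := (key 0 (zero_mem H)).1 k
    have h2 : 0 < (Finset.univ.filter fun j => κ j = k).card := by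
      rw [h1]
      exact hb k
    obtain ⟨j, hj⟩ := Finset.card_pos.1 h2
    exact ⟨j, (Finset.mem_filter.1 hj).2⟩
  · rw [← rY_eval, (key u hu).2 k, eval_mul, eval_C, eval_prod]
    simp

end branch

end Pool.Agent.Q212.DC
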