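import Pool.Agent.Q212.DC.Reg
set_option autoImplicit false

/-!
The regulators of the symbols `{R_k(x, y), z, w}` for the factors `R_k` of `F(X) - G(Y)` on the
products of the loops of the curves `z + 1/z = F(x)` and `w + 1/w = G(y)` over the components of
`F(x) ∈ [-2, 2]` and `G(y) ∈ [-2, 2]`.
-/

namespace Pool.Agent.Q212.DC

open Polynomial

open scoped WithZero

open Pool.Agent.TH826.MK (Torus KQ symb pairing circ norm_circ contDiff_circ circ_add_one vf
  Unramified unitPart Good One pairing_prod pairing_const pairing_cons_mul one_lin wd good_prod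
  symb_eq_zero')

open Pool.Agent.Y775.CC (CRing cp cc cx cz evC evC_cc evC_cx evC_cz Branches contDiff_evC mkL uu
  Mm hfun pairing_hfun good_hfun Mm_neg sum_Mm' Mm_symm exists_branches exists_radius' uu_one_mem'
  uu_mem uu_ne contDiff_branch_uu uu_add_one circ_ne_zero SmoothPts smoothPts s_mul0 s_mul1 s_mul2
  s_diff s_neg0 s_self12 s_self01 s_self02 upd0)

section rel

variable {L : Type*} [Field L]

/-- The relation between the symbols. -/
theorem s_rel {h z w : Lˣ} (hh : (h : L) * (z * w) = (z - w) * (z * w - 1)) :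
    symb ![h, z, w] = 0 := by
  have h0 : (h : L) * (z * w) ≠ 0 := mul_ne_zero h.ne_zero (mul_ne_zero z.ne_zero w.ne_zero)
  rw [hh] at h0
  have ha : (z : L) - w ≠ 0 := left_ne_zero_of_mul h0
  have hb : (1 : L) - z * w ≠ 0 := by
    intro h1
    apply right_ne_zero_of_mul h0
    linear_combination -h1
  set a : Lˣ := Units.mk0 _ ha with hadef
  set b : Lˣ := Units.mk0 _ hb with hbdef
  have e : h * (z * w) = a * (-b) := by
    apply Units.ext
    rw [Units.val_mul, Units.val_mul, hh, Units.val_mul, Units.val_neg, hadef, hbdef,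
      Units.val_mk0, Units.val_mk0]
    ring
  have h1 : symb ![a, z, w] = 0 := s_diff (by rw [hadef, Units.val_mk0])
  have h2 : symb ![b, z, w] = 0 := by
    have h3 : symb ![b, z * w, w] = 0 := by
      refine symb_eq_zero' _ (i := 0) (j := 1) (by decide) ?_
      show (b : L) + ((z * w : Lˣ) : L) = 1
      rw [hbdef, Units.val_mk0, Units.val_mul]
      ring
    rw [s_mul1, s_self12, add_zero] at h3
    exact h3
  have h3 : symb ![h * (z * w), z, w] = 0 := by
    rw [e, s_mul0, s_neg0, h1, h2, add_zero]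
  rw [s_mul0, s_mul0, s_self01, s_self02, add_zero, add_zero] at h3
  exact h3

theorem s_prod {ι : Type*} (T : Finset ι) (h : ι → Lˣ) (z w : Lˣ) :
    symb ![∏ k ∈ T, h k, z, w] = ∑ k ∈ T, symb ![h k, z, w] := by
  classical
  induction T using Finset.induction_on with
  | empty => rw [Finset.prod_empty, Finset.sum_empty, s_one0']
  | insert k T hk ih => rw [Finset.prod_insert hk, Finset.sum_insert hk, s_mul0, ih]

variable {K : Type*} [Field K] {F G : K[X]} {ι : Type*} [Fintype ι] {R : ι → K[X][X]}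

/-- The sum of the symbols of all the factors vanishes. -/
theorem sum_symb_ent (hprod : ∏ k, R k = dif F G) (f : ORing F G →+* L) :
    ∑ k, KQ.map 3 f (symb (ent (dvd_of_prod hprod k))) = 0 := by
  have e1 : ∀ k, KQ.map 3 f (symb (ent (dvd_of_prod hprod k))) =
      symb ![Units.map (f : ORing F G →* L) (isUnit_rv (dvd_of_prod hprod k)).unit,
        Units.map (f : ORing F G →* L) (isUnit_z1 F G).unit,
        Units.map (f : ORing F G →* L) (isUnit_z2 F G).unit] := by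
    intro k
    rw [KQ.map_symb]
    congr 1
    funext i
    fin_cases i <;> rfl
  simp only [e1]
  rw [← s_prod]
  refine s_rel ?_
  have e2 : ((∏ k, Units.map (f : ORing F G →* L) (isUnit_rv (dvd_of_prod hprod k)).unit : Lˣ) : L)
      = f (toO F G (sdel F G)) := by
    rw [Units.coe_prod]
    have e3 : ∀ k, ((Units.map (f : ORing F G →* L)
        (isUnit_rv (dvd_of_prod hprod k)).unit : Lˣ) : L) = f (toO F G (rv F G (R k))) :=
      fun k => rfl
    simp only [e3]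
    rw [← map_prod, ← map_prod]
    congr 2
    unfold rv sdel
    rw [← ev2_prod, hprod, ev2_dif]
  rw [e2]
  show f (toO F G (sdel F G)) * (f (toO F G (z1 F G)) * f (toO F G (z2 F G))) =
    (f (toO F G (z1 F G)) - f (toO F G (z2 F G))) *
      (f (toO F G (z1 F G)) * f (toO F G (z2 F G)) - 1)
  have h1 := congrArg (fun r => f (toO F G r)) (z1_eqn F G)
  have h2 := congrArg (fun r => f (toO F G r)) (z2_eqn F G)
  unfold sdel
  simp only [map_add, map_sub, map_mul, map_pow, map_one, map_zero] at h1 h2 ⊢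
  linear_combination -f (toO F G (z2 F G)) * h1 + f (toO F G (z1 F G)) * h2

end rel

section reg

theorem one_circ {R : ℝ} (hR : 0 < R) : One (circ R) (wd R 0) := by
  have h := one_lin hR (b := 0) (by rw [norm_zero]; exact hR.ne)
  simpa using h

/-- The regulator of `c ∏_j (y - ψ_j(u))`. -/
theorem pairing_factor {G : ℂ[X]} {m : ℕ} {V : Set ℂ} {ψ : Fin m → ℂ → ℂ} (H : Branches G V ψ)
    {r : ℝ} (hr : 1 < r) (hV : ∀ z : ℂ, 1 ≤ ‖z‖ → ‖z‖ ≤ r → z + z⁻¹ ∈ V) (T : Finset (Fin m))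
    {c : ℂ} (hc : ‖c‖ = 1) (j : Fin m) :
    pairing (Fin.cons (fun θ : Fin 2 → ℝ => c * ∏ l ∈ T, (ψ j (uu 1 (θ 1)) - ψ l (uu r (θ 0))))
      (vf ![circ r, circ 1]) : Fin 3 → (Fin 2 → ℝ) → ℂ) =
      ∑ l ∈ T, 4 * Real.pi ^ 2 * Mm ψ l j := by
  classical
  have e : (fun θ : Fin 2 → ℝ => c * ∏ l ∈ T, (ψ j (uu 1 (θ 1)) - ψ l (uu r (θ 0)))) =
      fun θ => (fun _ => c * (-1) ^ T.card) θ * (fun θ => ∏ l ∈ T, hfun ψ r l j θ) θ := by
    funext θ
    have h1 : ∀ l, ψ j (uu 1 (θ 1)) - ψ l (uu r (θ 0)) = (-1) * hfun ψ r l j θ := by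
      intro l
      unfold hfun
      ring
    simp only [h1]
    rw [Finset.prod_mul_distrib, Finset.prod_const, mul_assoc]
  have hG : ∀ l, One ((![circ r, circ 1] : Fin 2 → ℝ → ℂ) l)
      ((![wd r 0, wd 1 0] : Fin 2 → ℝ) l) := by
    intro l
    fin_cases l
    · exact one_circ (zero_lt_one.trans hr)
    · exact one_circ one_pos
  have hgood : ∀ l, Good (hfun ψ r l j) := fun l => good_hfun H hr hV l j
  have hn1 : ‖c * (-1) ^ T.card‖ = 1 := by
    rw [norm_mul, hc, one_mul, norm_pow, norm_neg, norm_one, one_pow]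
  have hc0 : c * (-1) ^ T.card ≠ 0 := by
    intro h0
    rw [h0, norm_zero] at hn1
    exact zero_ne_one hn1
  have hv : ∀ l, Good (vf (![circ r, circ 1] : Fin 2 → ℝ → ℂ) l) := fun l => (hG l).good l
  have hcst : Good (fun _ : Fin 2 → ℝ => c * (-1) ^ T.card) := ⟨contDiff_const, fun _ => hc0⟩
  rw [e]
  refine (pairing_cons_mul hcst (good_prod T hgood) hv).trans ?_
  rw [pairing_prod T hgood hG, pairing_const _ _ _ hG, hn1, Real.log_one, mul_zero, zero_mul,
    zero_add]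
  exact Finset.sum_congr rfl fun l _ => pairing_hfun H hr hV l j

/-- Linear algebra: the only relation is that of the row sums. -/
theorem rel_iff {m : ℕ} {ι : Type*} [Fintype ι] [DecidableEq ι] {M : Fin m → Fin m → ℝ}
    (hneg : ∀ c : Fin m → ℝ, (∃ i j, c i ≠ c j) → ∑ i, ∑ j, c i * c j * M i j < 0)
    (hsum : ∀ j, ∑ l, M l j = 0) (κ : Fin m → ι) (hκ : Function.Surjective κ) (c : ι → ℝ) :
    (∀ j, ∑ k, c k * ∑ l with κ l = k, M l j = 0) ↔ ∀ k k', c k = c k' := by
  have h1 : ∀ j, ∑ k, c k * ∑ l with κ l = k, M l j = ∑ l, c (κ l) * M l j := by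
    intro j
    rw [← Finset.sum_fiberwise_of_maps_to (s := Finset.univ) (t := Finset.univ) (g := κ)
      (fun l _ => Finset.mem_univ _)]
    refine Finset.sum_congr rfl fun k _ => ?_
    rw [Finset.mul_sum]
    refine Finset.sum_congr rfl fun l hl => ?_
    rw [(Finset.mem_filter.1 hl).2]
  simp only [h1]
  constructor
  · intro h k k'
    obtain ⟨l, rfl⟩ := hκ k
    obtain ⟨l', rfl⟩ := hκ k'
    by_contra hcon
    have h2 := hneg (fun l => c (κ l)) ⟨l, l', hcon⟩
    have h3 : ∑ i, ∑ j, c (κ i) * c (κ j) * M i j = 0 := by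
      rw [Finset.sum_comm]
      refine Finset.sum_eq_zero fun j _ => ?_
      have h4 : ∀ i, c (κ i) * c (κ j) * M i j = c (κ j) * (c (κ i) * M i j) := fun i => by ring
      simp only [h4]
      rw [← Finset.mul_sum, h j, mul_zero]
    rw [h3] at h2
    exact lt_irrefl _ h2
  · intro h j
    rcases isEmpty_or_nonempty (Fin m) with hm | ⟨⟨l₀⟩⟩
    · rw [Finset.univ_eq_empty, Finset.sum_empty]
    · have h5 : ∀ l, c (κ l) * M l j = c (κ l₀) * M l j := fun l => by rw [h (κ l) (κ l₀)]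
      simp only [h5]
      rw [← Finset.mul_sum, hsum, mul_zero]

end reg

section main

variable {K : Type*} [Field K] {F G : K[X]} {s : K →+* ℂ} {n m : ℕ} {ι : Type*} [Fintype ι]
  {R : ι → K[X][X]}

theorem main {p q d : ℕ} (hF : F.Monic) (hG : G.Monic) (hn : F.natDegree = n)
    (hm : G.natDegree = m) (hnd : n = q * d) (hmd : m = p * d) (hd : 0 < d) (hp : 0 < p)
    (hq : 0 < q) (hpq : Nat.Coprime p q)
    (hcF : ∀ x : ℂ, (derivative F).eval₂ s x = 0 → ∀ t : ℝ, |t| ≤ 2 → F.eval₂ s x ≠ t)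
    (hcG : ∀ x : ℂ, (derivative G).eval₂ s x = 0 → ∀ t : ℝ, |t| ≤ 2 → G.eval₂ s x ≠ t)
    (hR : ∀ k, (R k).Monic) (hRd : ∀ k, 0 < (R k).natDegree) (hprod : ∏ k, R k = dif F G) :
    ∃ (V : Set ℂ) (φ : Fin n → ℂ → ℂ) (ψ : Fin m → ℂ → ℂ) (r : ℝ)
      (γ : Fin n → Torus (CRing F) 1) (γ' : Fin m → Torus (CRing G) 1)
      (Γ : Fin n → Fin m → Torus (ORing F G) 2),
      Branches (F.map s) V φ ∧ Branches (G.map s) V ψ ∧ 1 < r ∧
      (∀ z : ℂ, 1 ≤ ‖z‖ → ‖z‖ ≤ r → z + z⁻¹ ∈ V) ∧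
      (∀ i θ, (∀ a : K, (γ i).e θ (cc F a) = s a) ∧ (γ i).e θ (cx F) = φ i (uu r (θ 0)) ∧
        (γ i).e θ (cz F) = circ r (θ 0)) ∧
      (∀ j θ, (∀ a : K, (γ' j).e θ (cc G a) = s a) ∧ (γ' j).e θ (cx G) = ψ j (uu 1 (θ 0)) ∧
        (γ' j).e θ (cz G) = circ 1 (θ 0)) ∧
      (∀ i j θ, (∀ a, (Γ i j).e θ (toO F G (fst F G a)) = (γ i).e (fun _ => θ 0) a) ∧
        ∀ b, (Γ i j).e θ (toO F G (snd F G b)) = (γ' j).e (fun _ => θ 1) b) ∧
      ∀ i (c : ι → ℝ), (∀ j, ∑ k, c k * (Γ i j).reg (symb (ent (dvd_of_prod hprod k))) = 0) ↔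
        ∀ k k', c k = c k' := by
  classical
  have hn0 : 0 < n := by rw [hnd]; exact Nat.mul_pos hq hd
  have hm0 : 0 < m := by rw [hmd]; exact Nat.mul_pos hp hd
  have hbr : ∀ (P : K[X]) (e : ℕ), P.Monic → P.natDegree = e → 0 < e →
      (∀ x : ℂ, (derivative P).eval₂ s x = 0 → ∀ t : ℝ, |t| ≤ 2 → P.eval₂ s x ≠ t) →
      ∃ (V : Set ℂ) (φ : Fin e → ℂ → ℂ), Branches (P.map s) V φ := by
    intro P e hP he he0 hc
    refine exists_branches (hP.map s) he0 (by rw [hP.natDegree_map, he]) ?_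
    intro x hx t ht
    rw [eval_map]
    refine hc x ?_ t ht
    rw [← eval_map, ← derivative_map]
    exact hx
  obtain ⟨V₁, φ, H₁⟩ := hbr F n hF hn hn0 hcF
  obtain ⟨V₂, ψ, H₂⟩ := hbr G m hG hm hm0 hcG
  set V : Set ℂ := V₁ ∩ V₂ with hVdef
  have H : Branches (F.map s) V φ := branches_mono H₁ (H₁.isOpen.inter H₂.isOpen)
    (H₁.convex.inter H₂.convex) (fun t ht => ⟨H₁.mem t ht, H₂.mem t ht⟩) Set.inter_subset_left
  have H' : Branches (G.map s) V ψ := branches_mono H₂ (H₁.isOpen.inter H₂.isOpen)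
    (H₁.convex.inter H₂.convex) (fun t ht => ⟨H₁.mem t ht, H₂.mem t ht⟩) Set.inter_subset_right
  obtain ⟨r, hr, hV⟩ := exists_radius' H.isOpen H.mem
  have hr0 : 0 < r := by linarith
  have hev : ∀ i, ∀ u ∈ V, F.eval₂ s (φ i u) = u := fun i u hu => by
    rw [← eval_map]
    exact H.eval_branch i hu
  have hev' : ∀ i, ∀ u ∈ V, G.eval₂ s (ψ i u) = u := fun i u hu => by
    rw [← eval_map]
    exact H'.eval_branch i hu
  have hV1 : ∀ t, uu 1 t ∈ V := uu_one_mem' hr.le hV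
  have hVR : ∀ t, uu r t ∈ V := uu_mem hr.le hV
  have hcir : ∀ (a : ℝ), 0 < a → ∀ t, circ a t ^ 2 - uu a t * circ a t + 1 = 0 := by
    intro a ha t
    have h1 : circ a t * (circ a t)⁻¹ = 1 := mul_inv_cancel₀ (circ_ne_zero ha t)
    have h3 : uu a t = circ a t + (circ a t)⁻¹ := rfl
    rw [h3]
    linear_combination -h1
  have heq : ∀ i t, circ r t ^ 2 - F.eval₂ s (φ i (uu r t)) * circ r t + 1 = 0 := by
    intro i t
    rw [hev i _ (hVR t)]
    exact hcir r hr0 t
  have heq' : ∀ i t, circ 1 t ^ 2 - G.eval₂ s (ψ i (uu 1 t)) * circ 1 t + 1 = 0 := by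
    intro i t
    rw [hev' i _ (hV1 t)]
    exact hcir 1 one_pos t
  have hP : ∀ i j a b, PtO F G s (φ i (uu r a)) (circ r a) (ψ j (uu 1 b)) (circ 1 b) := by
    intro i j a b
    refine ⟨heq i a, heq' j b, ?_⟩
    rw [hev i _ (hVR a), hev' j _ (hV1 b)]
    exact uu_ne hr a b
  have hX : ∀ i, ContDiff ℝ 2 fun t => φ i (uu r t) := fun i =>
    contDiff_branch_uu H hr hV i hr.le le_rfl
  have hY : ∀ i, ContDiff ℝ 2 fun t => ψ i (uu 1 t) := fun i =>
    contDiff_branch_uu H' hr hV i le_rfl hr.le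
  have pX : ∀ i t, φ i (uu r (t + 1)) = φ i (uu r t) := fun i t => by rw [uu_add_one]
  have pY : ∀ i t, ψ i (uu 1 (t + 1)) = ψ i (uu 1 t) := fun i t => by rw [uu_add_one]
  set γ : Fin n → Torus (CRing F) 1 := fun i =>
    mkL (hX i) (contDiff_circ r) (pX i) (circ_add_one r) (heq i) with hγ
  set γ' : Fin m → Torus (CRing G) 1 := fun i =>
    mkL (hY i) (contDiff_circ 1) (pY i) (circ_add_one 1) (heq' i) with hγ'
  set Γ : Fin n → Fin m → Torus (ORing F G) 2 := fun i j =>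
    mkT (hX i) (contDiff_circ r) (hY j) (contDiff_circ 1) (pX i) (circ_add_one r) (pY j)
      (circ_add_one 1) (hP i j) with hΓ
  have hΓe : ∀ i j (θ : Fin 2 → ℝ) (a : SRing F G), (Γ i j).e θ (toO F G a) =
      evS s (φ i (uu r (θ 0))) (circ r (θ 0)) (ψ j (uu 1 (θ 1))) (circ 1 (θ 1))
        (hP i j (θ 0) (θ 1)).eq1 (hP i j (θ 0) (θ 1)).eq2 a := fun i j θ a =>
    (hP i j (θ 0) (θ 1)).ev_toO a
  have hlead : ∀ k, ∃ (b : ℕ) (c : ℂ), 0 < b ∧ ‖c‖ = 1 ∧
      ∀ x, (rY s x (R k)).natDegree = b ∧ (rY s x (R k)).leadingCoeff = c := by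
    intro k
    obtain ⟨S, hS, hRS⟩ := exists_cofactor hF (by rw [hn]; exact hn0) (hR k)
      (dvd_of_prod hprod k)
    exact exists_lead s hF hG (by rw [hn, hnd]) (by rw [hm, hmd]) hd hp hq hpq (hR k) hS (hRd k)
      hRS
  refine ⟨V, φ, ψ, r, γ, γ', Γ, H, H', hr, hV, fun i θ => ⟨fun a => ?_, ?_, ?_⟩,
    fun i θ => ⟨fun a => ?_, ?_, ?_⟩, fun i j θ => ⟨fun a => ?_, fun b => ?_⟩, ?_⟩
  · exact evC_cc s _ _ (heq i (θ 0)) a
  · exact evC_cx s _ _ (heq i (θ 0))
  · exact evC_cz s _ _ (heq i (θ 0))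
  · exact evC_cc s _ _ (heq' i (θ 0)) a
  · exact evC_cx s _ _ (heq' i (θ 0))
  · exact evC_cz s _ _ (heq' i (θ 0))
  · rw [hΓe, evS_fst]
    rfl
  · rw [hΓe, evS_snd]
    rfl
  · intro i c
    obtain ⟨κ, hκ, hfac⟩ := exists_factor H H' hprod hlead i
    have hreg : ∀ j k, (Γ i j).reg (symb (ent (dvd_of_prod hprod k))) =
        ∑ l with κ l = k, 4 * Real.pi ^ 2 * Mm ψ l j := by
      intro j k
      obtain ⟨a, ha, hfa⟩ := hfac k
      rw [Torus.reg_symb, ← pairing_factor H' hr hV _ ha j]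
      unfold Torus.pair
      congr 1
      funext l
      refine Fin.cases ?_ (fun l => ?_) l
      · funext θ
        show (Γ i j).e θ (toO F G (rv F G (R k))) = _
        rw [hΓe, evS_rv, hfa _ (hVR (θ 0))]
        rfl
      · refine Fin.cases ?_ (fun l => ?_) l
        · funext θ
          show (Γ i j).e θ (toO F G (z1 F G)) = circ r (θ 0)
          rw [hΓe, evS_z1]
        · rw [Subsingleton.elim l 0]
          funext θ
          show (Γ i j).e θ (toO F G (z2 F G)) = circ 1 (θ 1)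
          rw [hΓe, evS_z2]
    simp only [hreg]
    have hpi : (0 : ℝ) < 4 * Real.pi ^ 2 := by positivity
    refine rel_iff (M := fun l j => 4 * Real.pi ^ 2 * Mm ψ l j) ?_ ?_ κ hκ c
    · intro c hc
      have h1 := Mm_neg H' hc
      have h3 : ∑ i, ∑ j, c i * c j * (4 * Real.pi ^ 2 * Mm ψ i j) =
          4 * Real.pi ^ 2 * ∑ i, ∑ j, c i * c j * Mm ψ i j := by
        rw [Finset.mul_sum]
        refine Finset.sum_congr rfl fun i _ => ?_
        rw [Finset.mul_sum]
        exact Finset.sum_congr rfl fun j _ => by ring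
      rw [h3]
      exact mul_neg_of_pos_of_neg hpi h1
    · intro j
      rw [← Finset.mul_sum]
      simp only [Mm_symm H' _ j]
      rw [sum_Mm' H', mul_zero]

end main

end Pool.Agent.Q212.DC
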