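import Pool.Agent.Q212.DC.Unr
set_option autoImplicit false

/-!
The symbol `{R(x, y), z, w}` with `z + 1/z = P(x)`, `w + 1/w = Q(y)`, where `R` is a monic divisor
of `P(X) - Q(Y)`, is unramified.
-/

namespace Pool.Agent.Q212.DC

open scoped WithZero

open Polynomial

open Pool.Agent.TH826.MK (symb unitPart symb_update_mul symb_update_zpow
  mem_unitPart_of_oneUnit' mem_unitPart_of_pow val_one_of_sub_one)

open Pool.Agent.Y775.CC (upd0 upd1 upd2 s_mul0 s_mul1 s_mul2 s_neg0 s_zpow1 s_zpow2 s_inv1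
  s_self01 s_self12 s_self02 s_one0 s_one1 s_one2 s_unit s_diff val_eval_le_one val_eval_div
  val_z_eq_one)

section weights

variable {α β : ℤᵐ⁰} {p q b : ℕ}

theorem weight_lt (hα : 1 < α) (hβ : β ^ p < α ^ q) (hp : 0 < p) {i j : ℕ}
    (h : p * i + q * j ≤ p * (q * b)) (hne : j = 0 → i ≠ q * b) :
    α ^ i * β ^ j < α ^ (q * b) := by
  have hα0 : 0 < α := zero_lt_one.trans hα
  rcases Nat.eq_zero_or_pos j with hj | hj
  · subst hj
    rw [pow_zero, mul_one]
    refine pow_lt_pow_right₀ hα ?_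
    have h1 : p * i ≤ p * (q * b) := by omega
    exact lt_of_le_of_ne (Nat.le_of_mul_le_mul_left h1 hp) (hne rfl)
  · refine lt_of_pow_lt_pow_left₀ p zero_le ?_
    have e1 : (α ^ i * β ^ j) ^ p = α ^ (p * i) * (β ^ p) ^ j := by
      rw [mul_pow, ← pow_mul, ← pow_mul, ← pow_mul, mul_comm i p, mul_comm j p]
    rw [e1]
    calc α ^ (p * i) * (β ^ p) ^ j < α ^ (p * i) * (α ^ q) ^ j :=
          mul_lt_mul_of_pos_left (pow_lt_pow_left₀ hβ zero_le hj.ne') (pow_pos hα0 _)
      _ = α ^ (p * i + q * j) := by rw [← pow_mul, ← pow_add]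
      _ ≤ α ^ (p * (q * b)) := pow_le_pow_right₀ hα.le h
      _ = (α ^ (q * b)) ^ p := by rw [← pow_mul, mul_comm p]

theorem weight_lt' (hβ : 1 < β) (he : α ^ q = β ^ p) {i j : ℕ}
    (h : p * i + q * j < p * (q * b)) : α ^ i * β ^ j < (α ^ q) ^ b := by
  refine lt_of_pow_lt_pow_left₀ q zero_le ?_
  have e1 : (α ^ i * β ^ j) ^ q = β ^ (p * i + q * j) := by
    rw [mul_pow, ← pow_mul, mul_comm i q, pow_mul α q i, he, ← pow_mul, ← pow_mul, mul_comm j q,
      ← pow_add]
  have e2 : ((α ^ q) ^ b) ^ q = β ^ (p * (q * b)) := by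
    rw [he, ← pow_mul, ← pow_mul]
    congr 1
    ring
  rw [e1, e2]
  exact pow_lt_pow_right₀ hβ h

end weights

variable {L : Type*} [Field L] {v : Valuation L ℤᵐ⁰}

/-- torsion in the first entry -/
theorem s_tors0 {c z w : Lˣ} {k : ℕ} (hk : 0 < k) (hc : c ^ k = 1) : symb ![c, z, w] = 0 := by
  have h := s_pow0 c z w k
  rw [hc, s_one0'] at h
  have h4 : (k : ℚ) ≠ 0 := by exact_mod_cast hk.ne'
  exact (smul_eq_zero.1 h.symm).resolve_left h4

/-- `{∏ (x^q - ζ y^p), x, y} = 0` for roots of unity `ζ` -/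
theorem s_top {x y : Lˣ} {p q d : ℕ} (hp : 0 < p) (hq : 0 < q) (hd : 0 < d) (s : Multiset L)
    (hs : ∀ ζ ∈ s, ζ ^ d = 1) (t : Lˣ)
    (ht : (t : L) = (s.map fun ζ => (x : L) ^ q - ζ * (y : L) ^ p).prod) :
    symb ![t, x, y] = 0 := by
  induction s using Multiset.induction_on generalizing t with
  | empty =>
    have h1 : t = 1 := by
      apply Units.ext
      rw [ht, Multiset.map_zero, Multiset.prod_zero, Units.val_one]
    rw [h1, s_one0']
  | cons ζ s ih =>
    rw [Multiset.map_cons, Multiset.prod_cons] at ht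
    have h0 := t.ne_zero
    rw [ht] at h0
    have ha : (x : L) ^ q - ζ * (y : L) ^ p ≠ 0 := left_ne_zero_of_mul h0
    have hb := right_ne_zero_of_mul h0
    have e : t = Units.mk0 _ ha * Units.mk0 _ hb := Units.ext ht
    rw [e, s_mul0, s_diff_pow hp hq hd (hs ζ (Multiset.mem_cons_self ζ s)) rfl,
      ih (fun ξ hξ => hs ξ (Multiset.mem_cons_of_mem hξ)) _ rfl, add_zero]

/-- A unit that differs from another by less than its value. -/
theorem exists_OU {h t : Lˣ} (hlt : v ((h : L) - t) < v (t : L)) :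
    ∃ u : Lˣ, h = t * u ∧ OU v u := by
  refine ⟨t⁻¹ * h, by rw [mul_inv_cancel_left], ?_⟩
  have ht0 := t.ne_zero
  have e : ((t⁻¹ * h : Lˣ) : L) - 1 = ((h : L) - t) * (t : L)⁻¹ := by
    rw [Units.val_mul, Units.val_inv_eq_inv_val]
    field_simp
  unfold OU
  rw [e, map_mul, map_inv₀]
  have hv : 0 < v (t : L) := (Valuation.pos_iff v).2 ht0
  rw [← div_eq_mul_inv, div_lt_one₀ hv]
  exact hlt

/-- Case A: `y^p` is smaller than `x^q`. -/
theorem caseA {P : L[X]} {p q b : ℕ} (hp : 0 < p) (hP : P.Monic)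
    (hPv : ∀ i, v (P.coeff i) ≤ 1) (hPd : 0 < P.natDegree) {R : L[X][X]} (hR : R.Monic)
    (hRd : R.natDegree = q * b) (hRv : ∀ i j, v ((R.coeff i).coeff j) ≤ 1)
    (hw : ∀ i j, (R.coeff i).coeff j ≠ 0 → p * i + q * j ≤ p * (q * b))
    {y : L} {x h z w : Lˣ} (hx : 1 < v (x : L)) (hxy : v y ^ p < v (x : L) ^ q)
    (hh : (h : L) = ev2 (RingHom.id L) (x : L) y R)
    (hz : (z : L) ^ 2 + 1 = P.eval (x : L) * z) :
    symb ![h, z, w] ∈ unitPart v 3 := by
  obtain ⟨k, u, -, hzu, hu⟩ := exists_sign hP hPv hPd hx hz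
  have h1 : v ((h : L) - ((x ^ (q * b) : Lˣ) : L)) < v ((x ^ (q * b) : Lˣ) : L) := by
    have e : (h : L) - ((x ^ (q * b) : Lˣ) : L) =
        ev2 (RingHom.id L) (x : L) y (R - monomial (q * b) (monomial 0 1)) := by
      rw [ev2_sub', ev2_monomial, hh, pow_zero, map_one, mul_one, one_mul,
        Units.val_pow_eq_pow_val]
    rw [e, Units.val_pow_eq_pow_val, map_pow]
    refine val_ev2_lt (pow_ne_zero _ (zero_lt_one.trans hx).ne') fun i j hij => ?_
    rw [coeff_sub, coeff_monomial] at hij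
    by_cases hi : q * b = i
    · subst hi
      rw [if_pos rfl, ← hRd, hR.coeff_natDegree, coeff_sub, coeff_one, coeff_monomial] at hij
      exfalso
      apply hij
      by_cases hj : j = 0
      · rw [if_pos hj, if_pos hj.symm, sub_self]
      · rw [if_neg hj, if_neg (Ne.symm hj), sub_self]
    · rw [if_neg hi, sub_zero] at hij
      have h2 := weight_lt (b := b) hx hxy hp (hw i j hij) (fun _ h => hi h.symm)
      rw [coeff_sub, coeff_monomial, if_neg hi, sub_zero, mul_assoc]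
      calc v ((R.coeff i).coeff j) * (v (x : L) ^ i * v y ^ j) ≤ 1 * (v (x : L) ^ i * v y ^ j) :=
            mul_le_mul' (hRv i j) le_rfl
        _ < v (x : L) ^ (q * b) := by rwa [one_mul]
  obtain ⟨t, ht, hto⟩ := exists_OU h1
  rw [ht, hzu, s_mul0, s_pow0, s_mul1, s_zpow1, s_self01, smul_zero, zero_add]
  exact Submodule.add_mem _ (Submodule.smul_mem _ _ (s_one1 v hu)) (s_one0 v hto)

/-- Case B: `x^q` is smaller than `y^p`. -/
theorem caseB {Q : L[X]} {p q b d : ℕ} (hq : 0 < q) (hQ : Q.Monic)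
    (hQv : ∀ i, v (Q.coeff i) ≤ 1) (hQd : 0 < Q.natDegree) {R : L[X][X]}
    (hRv : ∀ i j, v ((R.coeff i).coeff j) ≤ 1)
    (hw : ∀ i j, (R.coeff i).coeff j ≠ 0 → p * i + q * j ≤ p * (q * b))
    (hd : 0 < d) {c : L} (hc : c ^ d = 1) (hRc : (R.coeff 0).coeff (p * b) = c)
    {x : L} {y h z w : Lˣ} (hy : 1 < v (y : L)) (hxy : v x ^ q < v (y : L) ^ p)
    (hh : (h : L) = ev2 (RingHom.id L) x (y : L) R)
    (hww : (w : L) ^ 2 + 1 = Q.eval (y : L) * w) :
    symb ![h, z, w] ∈ unitPart v 3 := by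
  obtain ⟨k, u, -, hwu, hu⟩ := exists_sign hQ hQv hQd hy hww
  have hc0 : c ≠ 0 := by
    rintro rfl
    rw [zero_pow hd.ne'] at hc
    exact zero_ne_one hc
  have hvc : v c = 1 := by
    have h1 : v c ^ d = 1 := by rw [← map_pow, hc, map_one]
    exact (pow_eq_one_iff_of_nonneg zero_le hd.ne').1 h1
  set c' : Lˣ := Units.mk0 c hc0 with hc'
  have hcd : c' ^ d = 1 := by
    apply Units.ext
    rw [Units.val_pow_eq_pow_val, hc', Units.val_mk0, hc, Units.val_one]
  have h1 : v ((h : L) - ((c' * y ^ (p * b) : Lˣ) : L)) < v ((c' * y ^ (p * b) : Lˣ) : L) := by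
    have e : (h : L) - ((c' * y ^ (p * b) : Lˣ) : L) =
        ev2 (RingHom.id L) x (y : L) (R - monomial 0 (monomial (p * b) c)) := by
      rw [ev2_sub', ev2_monomial, hh, pow_zero, mul_one, Units.val_mul,
        Units.val_pow_eq_pow_val, hc', Units.val_mk0, RingHom.id_apply]
    have e2 : v ((c' * y ^ (p * b) : Lˣ) : L) = v (y : L) ^ (p * b) := by
      rw [Units.val_mul, map_mul, Units.val_pow_eq_pow_val, map_pow, hc', Units.val_mk0, hvc,
        one_mul]
    rw [e, e2]
    refine val_ev2_lt (pow_ne_zero _ (zero_lt_one.trans hy).ne') fun i j hij => ?_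
    rw [coeff_sub, coeff_monomial] at hij
    have hgen : (R.coeff i).coeff j ≠ 0 → (i = 0 → j ≠ p * b) →
        v ((R.coeff i).coeff j) * v x ^ i * v (y : L) ^ j < v (y : L) ^ (p * b) := by
      intro h3 h4
      have h2 := weight_lt (b := b) (i := j) (j := i) hy hxy hq
        (by have h5 := hw i j h3; have h6 : q * (p * b) = p * (q * b) := by ring
            omega) h4
      calc v ((R.coeff i).coeff j) * v x ^ i * v (y : L) ^ j =
            v ((R.coeff i).coeff j) * (v (y : L) ^ j * v x ^ i) := by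
              rw [mul_assoc, mul_comm (v x ^ i)]
        _ ≤ 1 * (v (y : L) ^ j * v x ^ i) := mul_le_mul' (hRv i j) le_rfl
        _ < v (y : L) ^ (p * b) := by rwa [one_mul]
    by_cases hi : i = 0
    · subst hi
      rw [if_pos rfl, coeff_sub, coeff_monomial] at hij
      by_cases hj : p * b = j
      · subst hj
        rw [if_pos rfl, hRc, sub_self] at hij
        exact absurd rfl hij
      · rw [if_neg hj, sub_zero] at hij
        rw [coeff_sub, coeff_monomial, if_pos rfl, coeff_sub, coeff_monomial, if_neg hj, sub_zero]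
        exact hgen hij (fun _ h => hj h.symm)
    · rw [if_neg (Ne.symm hi), sub_zero] at hij
      rw [coeff_sub, coeff_monomial, if_neg (Ne.symm hi), sub_zero]
      exact hgen hij (fun h _ => hi h)
  obtain ⟨t, ht, hto⟩ := exists_OU h1
  rw [ht, hwu, s_mul0, s_mul0, s_tors0 hd hcd, zero_add, s_pow0, s_mul2, s_zpow2, s_self02,
    smul_zero, zero_add]
  exact Submodule.add_mem _ (Submodule.smul_mem _ _ (s_one2 v hu)) (s_one0 v hto)

/-- The leading form. -/
noncomputable def topf (p q : ℕ) (τ : L[X]) : L[X][X] :=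
  ∑ l ∈ Finset.range (τ.natDegree + 1),
    monomial (q * l) (monomial (p * (τ.natDegree - l)) (τ.coeff l))

theorem topf_coeff {p q : ℕ} (hq : 0 < q) (τ : L[X]) {l : ℕ} (hl : l ≤ τ.natDegree) :
    ((topf p q τ).coeff (q * l)).coeff (p * (τ.natDegree - l)) = τ.coeff l := by
  unfold topf
  rw [finsetSum_coeff, finsetSum_coeff, Finset.sum_eq_single l]
  · rw [coeff_monomial, if_pos rfl, coeff_monomial, if_pos rfl]
  · intro k _ hk
    rw [coeff_monomial, if_neg, coeff_zero]
    intro h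
    exact hk (Nat.eq_of_mul_eq_mul_left hq h)
  · intro h
    exact absurd (Finset.mem_range.2 (by omega)) h

theorem topf_coeff' {p q : ℕ} (τ : L[X]) {i j : ℕ}
    (h : ∀ l ≤ τ.natDegree, i = q * l → j ≠ p * (τ.natDegree - l)) :
    ((topf p q τ).coeff i).coeff j = 0 := by
  unfold topf
  rw [finsetSum_coeff, finsetSum_coeff]
  refine Finset.sum_eq_zero fun l hl => ?_
  have hl' : l ≤ τ.natDegree := by
    have := Finset.mem_range.1 hl
    omega
  rw [coeff_monomial]
  split_ifs with h1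
  · rw [coeff_monomial, if_neg]
    intro h2
    exact h l hl' h1.symm h2.symm
  · rw [coeff_zero]

theorem ev2_topf {p q : ℕ} {τ : L[X]} (hτ : τ.Monic) (hspl : τ.Splits) {x y : L} (hy : y ≠ 0) :
    ev2 (RingHom.id L) x y (topf p q τ) =
      (τ.roots.map fun ζ => x ^ q - ζ * y ^ p).prod := by
  have hyp : y ^ p ≠ 0 := pow_ne_zero _ hy
  have h1 : ev2 (RingHom.id L) x y (topf p q τ) =
      ∑ l ∈ Finset.range (τ.natDegree + 1), τ.coeff l * (y ^ p) ^ (τ.natDegree - l) *
        (x ^ q) ^ l := by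
    have e : ev2 (RingHom.id L) x y (topf p q τ) = ∑ l ∈ Finset.range (τ.natDegree + 1),
        ev2 (RingHom.id L) x y
          (monomial (q * l) (monomial (p * (τ.natDegree - l)) (τ.coeff l))) := by
      unfold ev2 topf
      exact Polynomial.eval₂_finsetSum _ _ _ _
    rw [e]
    refine Finset.sum_congr rfl fun l _ => ?_
    rw [ev2_monomial, RingHom.id_apply, pow_mul, pow_mul]
  have h2 : ∑ l ∈ Finset.range (τ.natDegree + 1), τ.coeff l * (y ^ p) ^ (τ.natDegree - l) *
        (x ^ q) ^ l = τ.eval (x ^ q / y ^ p) * (y ^ p) ^ τ.natDegree := by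
    rw [Polynomial.eval_eq_sum_range, Finset.sum_mul]
    refine Finset.sum_congr rfl fun l hl => ?_
    have hl' : l ≤ τ.natDegree := by
      have := Finset.mem_range.1 hl
      omega
    have e : (y ^ p) ^ τ.natDegree = (y ^ p) ^ (τ.natDegree - l) * (y ^ p) ^ l := by
      rw [← pow_add, Nat.sub_add_cancel hl']
    rw [e, div_pow]
    have h3 : (y ^ p) ^ l ≠ 0 := pow_ne_zero _ hyp
    field_simp
  have h3 : τ.eval (x ^ q / y ^ p) = (τ.roots.map fun ζ => x ^ q / y ^ p - ζ).prod := by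
    conv_lhs => rw [hspl.eq_prod_roots_of_monic hτ]
    rw [eval_multiset_prod, Multiset.map_map]
    congr 1
    refine Multiset.map_congr rfl fun ζ _ => ?_
    simp
  have h4 : τ.natDegree = τ.roots.card := hspl.natDegree_eq_card_roots
  rw [h1, h2, h3, h4]
  have h5 : (y ^ p) ^ τ.roots.card = (τ.roots.map fun _ => y ^ p).prod := by
    rw [Multiset.map_const', Multiset.prod_replicate]
  rw [h5, ← Multiset.prod_map_mul]
  congr 1
  refine Multiset.map_congr rfl fun ζ _ => ?_
  field_simp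

theorem val_factor_ge {U V ζ : L} {d : ℕ} (hd : 0 < d) (hζ : ζ ^ d = 1) (hV : v V ≠ 0)
    (hUV : v U = v V) (h : v (V ^ d) ≤ v (U ^ d - V ^ d)) : v V ≤ v (U - ζ * V) := by
  have hvζ : v ζ = 1 := by
    have h1 : v ζ ^ d = 1 := by rw [← map_pow, hζ, map_one]
    exact (pow_eq_one_iff_of_nonneg zero_le hd.ne').1 h1
  have e : U ^ d - V ^ d = (U - ζ * V) * ∑ i ∈ Finset.range d, U ^ i * (ζ * V) ^ (d - 1 - i) := by
    rw [(Commute.all U (ζ * V)).mul_geom_sum₂ d, mul_pow, hζ, one_mul]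
  have h1 : v (∑ i ∈ Finset.range d, U ^ i * (ζ * V) ^ (d - 1 - i)) ≤ v V ^ (d - 1) := by
    refine Valuation.map_sum_le v fun i hi => ?_
    have hi' := Finset.mem_range.1 hi
    rw [map_mul, map_pow, map_pow, map_mul, hvζ, one_mul, hUV, ← pow_add]
    exact (congrArg (fun k => v V ^ k) (by omega : i + (d - 1 - i) = d - 1)).le
  have h2 : v V * v V ^ (d - 1) ≤ v (U - ζ * V) * v V ^ (d - 1) := by
    calc v V * v V ^ (d - 1) = v (V ^ d) := by
          rw [map_pow, ← pow_succ']
          congr 1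
          omega
      _ ≤ v (U ^ d - V ^ d) := h
      _ ≤ v (U - ζ * V) * v V ^ (d - 1) := by
          rw [e, map_mul]
          exact mul_le_mul' le_rfl h1
  exact le_of_mul_le_mul_right h2 (pow_pos ((zero_le).lt_of_ne (Ne.symm hV)) _)

theorem val_prod_ge {g : ℤᵐ⁰} (f : L → L) (s : Multiset L) (hs : ∀ ζ ∈ s, g ≤ v (f ζ)) :
    g ^ s.card ≤ v (s.map f).prod := by
  induction s using Multiset.induction_on with
  | empty => simp
  | cons ζ s ih =>
    rw [Multiset.map_cons, Multiset.prod_cons, Multiset.card_cons, pow_succ', map_mul]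
    exact mul_le_mul' (hs ζ (Multiset.mem_cons_self ζ s))
      (ih fun ξ hξ => hs ξ (Multiset.mem_cons_of_mem hξ))

/-- Case C: `x^q` and `y^p` have the same value. -/
theorem caseC {P Q : L[X]} {p q d : ℕ} (hP : P.Monic) (hQ : Q.Monic)
    (hPv : ∀ i, v (P.coeff i) ≤ 1) (hQv : ∀ i, v (Q.coeff i) ≤ 1)
    (hn : P.natDegree = q * d) (hm : Q.natDegree = p * d) (hd : 0 < d) (hp : 0 < p) (hq : 0 < q)
    {R : L[X][X]} (hRv : ∀ i j, v ((R.coeff i).coeff j) ≤ 1) {τ : L[X]} (hτ : τ.Monic)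
    (hspl : τ.Splits) (hroot : ∀ ζ ∈ τ.roots, ζ ^ d = 1)
    (hw : ∀ i j, (R.coeff i).coeff j ≠ 0 → p * i + q * j ≤ p * (q * τ.natDegree))
    (hw' : ∀ i j, p * i + q * j = p * (q * τ.natDegree) → (R.coeff i).coeff j ≠ 0 →
        ∃ l ≤ τ.natDegree, i = q * l ∧ j = p * (τ.natDegree - l))
    (hc : ∀ l ≤ τ.natDegree, (R.coeff (q * l)).coeff (p * (τ.natDegree - l)) = τ.coeff l)
    {x y h z w : Lˣ} (hx : 1 < v (x : L)) (hy : 1 < v (y : L))
    (hxy : v (x : L) ^ q = v (y : L) ^ p)
    (hh : (h : L) = ev2 (RingHom.id L) (x : L) (y : L) R)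
    (hz : (z : L) ^ 2 + 1 = P.eval (x : L) * z) (hww : (w : L) ^ 2 + 1 = Q.eval (y : L) * w) :
    symb ![h, z, w] ∈ unitPart v 3 := by
  obtain ⟨k, u, hk, hzu, hu⟩ := exists_sign hP hPv (by rw [hn]; exact Nat.mul_pos hq hd) hx hz
  obtain ⟨k', u', hk', hwu, hu'⟩ := exists_sign hQ hQv (by rw [hm]; exact Nat.mul_pos hp hd) hy hww
  have hy0 : v (y : L) ^ p ≠ 0 := pow_ne_zero _ (zero_lt_one.trans hy).ne'
  by_cases hC : v (((x ^ q) ^ d : Lˣ) - ((y ^ p) ^ d : Lˣ) : L) < v (((y ^ p) ^ d : Lˣ) : L)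
  · obtain ⟨o, ho, hoo⟩ := exists_OU hC
    obtain ⟨ε, hε⟩ : ∃ ε : ℤ, x ^ k = ((x ^ q) ^ d) ^ ε := by
      rcases hk with hk | hk
      · exact ⟨1, by rw [hk, hn, zpow_one, zpow_natCast, pow_mul]⟩
      · exact ⟨-1, by rw [hk, hn, zpow_neg, zpow_neg, zpow_one, zpow_natCast, pow_mul]⟩
    obtain ⟨δ, hδ⟩ : ∃ δ : ℤ, y ^ k' = ((y ^ p) ^ d) ^ δ := by
      rcases hk' with hk | hk
      · exact ⟨1, by rw [hk, hm, zpow_one, zpow_natCast, pow_mul]⟩
      · exact ⟨-1, by rw [hk, hm, zpow_neg, zpow_neg, zpow_one, zpow_natCast, pow_mul]⟩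
    rw [hzu, hwu, hε, hδ, ho, s_mul1, s_zpow1, s_mul1, s_mul2 h ((y ^ p) ^ d), s_zpow2, s_self12,
      smul_zero, zero_add]
    refine Submodule.add_mem _ (Submodule.smul_mem _ _ (Submodule.add_mem _ (s_one2 v hu') ?_))
      (s_one1 v hu)
    exact s_one1 v hoo
  · push Not at hC
    simp only [Units.val_pow_eq_pow_val] at hC
    have hUV : v ((x : L) ^ q) = v ((y : L) ^ p) := by rw [map_pow, map_pow, hxy]
    have hVne : v ((y : L) ^ p) ≠ 0 := by
      rw [map_pow]
      exact hy0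
    have hge : v ((y : L) ^ p) ^ τ.natDegree ≤
        v ((τ.roots.map fun ζ => (x : L) ^ q - ζ * (y : L) ^ p).prod) := by
      rw [hspl.natDegree_eq_card_roots]
      exact val_prod_ge _ _ fun ζ hζ => val_factor_ge hd (hroot ζ hζ) hVne hUV hC
    have ht0 : (τ.roots.map fun ζ => (x : L) ^ q - ζ * (y : L) ^ p).prod ≠ 0 := by
      intro h0
      rw [h0, map_zero] at hge
      exact absurd (le_antisymm hge zero_le) (pow_ne_zero _ hVne)
    have hlt : v ((h : L) - (Units.mk0 _ ht0 : Lˣ)) < v ((Units.mk0 _ ht0 : Lˣ) : L) := by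
      rw [Units.val_mk0]
      refine lt_of_lt_of_le ?_ hge
      rw [← ev2_topf hτ hspl y.ne_zero, hh, ← ev2_sub']
      refine val_ev2_lt (pow_ne_zero _ hVne) fun i j hij => ?_
      rw [coeff_sub, coeff_sub] at hij ⊢
      by_cases hl : ∃ l ≤ τ.natDegree, i = q * l ∧ j = p * (τ.natDegree - l)
      · obtain ⟨l, hl, rfl, rfl⟩ := hl
        rw [hc l hl, topf_coeff hq τ hl, sub_self] at hij
        exact absurd rfl hij
      · push Not at hl
        rw [topf_coeff' τ hl, sub_zero] at hij ⊢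
        have h1 : p * i + q * j < p * (q * τ.natDegree) := by
          refine lt_of_le_of_ne (hw i j hij) fun he => ?_
          obtain ⟨l, h3, h4, h5⟩ := hw' i j he hij
          exact hl l h3 h4 h5
        have h2 := weight_lt' hy hxy h1
        rw [map_pow, ← hxy, mul_assoc]
        calc v ((R.coeff i).coeff j) * (v (x : L) ^ i * v (y : L) ^ j) ≤
              1 * (v (x : L) ^ i * v (y : L) ^ j) := mul_le_mul' (hRv i j) le_rfl
          _ < (v (x : L) ^ q) ^ τ.natDegree := by rwa [one_mul]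
    obtain ⟨o, ho, hoo⟩ := exists_OU hlt
    rw [ho, hzu, hwu, s_mul0, s_mul1, s_mul2, s_zpow1, s_zpow2, s_top hp hq hd τ.roots hroot _
      (Units.val_mk0 ht0), smul_zero, smul_zero, zero_add]
    exact Submodule.add_mem _ (Submodule.add_mem _ (s_one2 v hu') (s_one1 v hu)) (s_one0 v hoo)

/-- The symbol `{R(x, y), z, w}` is unramified. -/
theorem fac_mem_unitPart {P Q : L[X]} {p q d : ℕ} (hP : P.Monic) (hQ : Q.Monic)
    (hPv : ∀ i, v (P.coeff i) ≤ 1) (hQv : ∀ i, v (Q.coeff i) ≤ 1)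
    (hn : P.natDegree = q * d) (hm : Q.natDegree = p * d) (hd : 0 < d) (hp : 0 < p) (hq : 0 < q)
    (hpq : Nat.Coprime p q) (hspl : (X ^ d - 1 : L[X]).Splits)
    {R S : L[X][X]} (hR : R.Monic) (hS : S.Monic) (hRS : R * S = P.map C - C Q)
    {x y : L} {h z w : Lˣ} (hh : (h : L) = ev2 (RingHom.id L) x y R)
    (hz : (z : L) ^ 2 + 1 = P.eval x * z) (hww : (w : L) ^ 2 + 1 = Q.eval y * w) :
    symb ![h, z, w] ∈ unitPart v 3 := by
  have hPd : 0 < P.natDegree := by rw [hn]; exact Nat.mul_pos hq hd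
  have hQd : 0 < Q.natDegree := by rw [hm]; exact Nat.mul_pos hp hd
  obtain ⟨τ, hτ, hτd, hRd, hw, hw', hc⟩ := exists_form hP hQ hn hm hd hp hq hpq hR hS hRS
  have hRv := val_coeff_le hP hPd hPv hQv hR ⟨S, hRS.symm⟩
  have hSv := val_coeff_le hP hPd hPv hQv hS ⟨R, by rw [mul_comm]; exact hRS.symm⟩
  have hXd : (X ^ d - 1 : L[X]) ≠ 0 := (monic_X_pow_sub_C (1 : L) hd.ne').ne_zero
  have hτs : τ.Splits := hspl.of_dvd hXd hτd
  have hroot : ∀ ζ ∈ τ.roots, ζ ^ d = 1 := by
    intro ζ hζ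
    have h1 : (X ^ d - 1 : L[X]).eval ζ = 0 := eval_eq_zero_of_dvd_of_eval_eq_zero hτd
      (isRoot_of_mem_roots hζ)
    simp only [eval_sub, eval_pow, eval_X, eval_one] at h1
    exact sub_eq_zero.1 h1
  have hunit : ∀ {a : L}, 1 < v a → ∃ a' : Lˣ, (a' : L) = a := by
    intro a ha
    have ha0 : a ≠ 0 := by
      rintro rfl
      rw [map_zero] at ha
      exact absurd ha (not_lt.2 zero_le_one)
    exact ⟨Units.mk0 a ha0, rfl⟩
  by_cases hxy : v x ≤ 1 ∧ v y ≤ 1
  · obtain ⟨hx, hy⟩ := hxy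
    have hz1 := val_z_eq_one hPv hx hz
    have hw1 := val_z_eq_one hQv hy hww
    have hhle : v (h : L) ≤ 1 := by
      rw [hh]
      exact val_ev2_le hx hy hRv
    rcases hhle.lt_or_eq with hlt | heq
    · have h1 : v (P.eval x - Q.eval y) < 1 := by
        have e : P.eval x - Q.eval y = h * ev2 (RingHom.id L) x y S := by
          rw [hh, ← ev2_mul, hRS]
          exact (ev2_dif P Q (RingHom.id L) x y).symm
        rw [e, map_mul]
        calc v (h : L) * v (ev2 (RingHom.id L) x y S) ≤ v (h : L) * 1 :=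
              mul_le_mul' le_rfl (val_ev2_le hx hy hSv)
          _ < 1 := by rwa [mul_one]
      have h2 : ((z : L) - w) * (z * w - 1) = (P.eval x - Q.eval y) * (z * w) := by
        linear_combination (w : L) * hz - (z : L) * hww
      have h3 : v (((z : L) - w) * (z * w - 1)) < 1 := by
        rw [h2, map_mul, map_mul, hz1, hw1, mul_one, mul_one]
        exact h1
      rw [map_mul] at h3
      have h4 : v ((z : L) - w) < 1 ∨ v ((z : L) * w - 1) < 1 := by
        by_contra hcon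
        push Not at hcon
        exact absurd h3 (not_lt.2 (one_le_mul hcon.1 hcon.2))
      rcases h4 with h4 | h4
      · have e : z = w * (z / w) := by rw [mul_div_cancel]
        rw [e, s_mul1, s_self12, zero_add]
        refine s_one1 v ?_
        have e2 : ((z / w : Lˣ) : L) - 1 = ((z : L) - w) / w := by
          rw [Units.val_div_eq_div_val]
          have := w.ne_zero
          field_simp
        rw [e2, map_div₀, hw1, div_one]
        exact h4
      · have e : z = w⁻¹ * (z * w) := by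
          rw [mul_comm z w, inv_mul_cancel_left]
        rw [e, s_mul1, s_inv1, s_self12, neg_zero, zero_add]
        exact s_one1 v (by rw [Units.val_mul]; exact h4)
    · exact s_unit v heq hz1 hw1
  · rw [not_and_or, not_le, not_le] at hxy
    rcases lt_trichotomy (v y ^ p) (v x ^ q) with hlt | heq | hgt
    · have hx : 1 < v x := by
        by_contra hcon
        push Not at hcon
        have hy : 1 < v y := hxy.resolve_left (not_lt.2 hcon)
        have h1 : 1 < v y ^ p := one_lt_pow₀ hy hp.ne'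
        exact absurd (h1.trans hlt) (not_lt.2 (pow_le_one' hcon q))
      obtain ⟨x', rfl⟩ := hunit hx
      exact caseA hp hP hPv hPd hR hRd hRv hw hx hlt hh hz
    · have hx : 1 < v x := by
        by_contra hcon
        push Not at hcon
        have hy : 1 < v y := hxy.resolve_left (not_lt.2 hcon)
        have h1 : 1 < v y ^ p := one_lt_pow₀ hy hp.ne'
        rw [heq] at h1
        exact absurd h1 (not_lt.2 (pow_le_one' hcon q))
      have hy : 1 < v y := by
        by_contra hcon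
        push Not at hcon
        have h1 : 1 < v x ^ q := one_lt_pow₀ hx hq.ne'
        rw [← heq] at h1
        exact absurd h1 (not_lt.2 (pow_le_one' hcon p))
      obtain ⟨x', rfl⟩ := hunit hx
      obtain ⟨y', rfl⟩ := hunit hy
      exact caseC hP hQ hPv hQv hn hm hd hp hq hRv hτ hτs hroot hw hw' hc hx hy heq.symm hh hz hww
    · have hy : 1 < v y := by
        by_contra hcon
        push Not at hcon
        have hx : 1 < v x := hxy.resolve_right (not_lt.2 hcon)
        have h1 : 1 < v x ^ q := one_lt_pow₀ hx hq.ne'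
        exact absurd (h1.trans hgt) (not_lt.2 (pow_le_one' hcon p))
      obtain ⟨y', rfl⟩ := hunit hy
      have hc0 : (τ.coeff 0) ^ (2 * d) = 1 := by
        have h1 : τ.coeff 0 = (τ.roots.map fun ζ => -ζ).prod := by
          rw [coeff_zero_eq_eval_zero]
          conv_lhs => rw [hτs.eq_prod_roots_of_monic hτ]
          rw [eval_multiset_prod, Multiset.map_map]
          congr 1
          refine Multiset.map_congr rfl fun ζ _ => ?_
          simp
        rw [h1, ← Multiset.prod_map_pow]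
        have h2 : τ.roots.map (fun ζ => (-ζ) ^ (2 * d)) = τ.roots.map fun _ => (1 : L) := by
          refine Multiset.map_congr rfl fun ζ hζ => ?_
          rw [pow_mul, neg_sq, ← pow_mul, mul_comm, pow_mul, hroot ζ hζ, one_pow]
        rw [h2, Multiset.map_const', Multiset.prod_replicate, one_pow]
      have hc0' := hc 0 (Nat.zero_le _)
      rw [mul_zero, Nat.sub_zero] at hc0'
      exact caseB hq hQ hQv hQd hRv hw (by omega) hc0 hc0' hy hgt hh hww

end Pool.Agent.Q212.DC
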