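import Pool.Agent.Q212.DC.Bra
import Pool.Agent.Q212.DC.Una
import Pool.Agent.Y775.CC.Main
set_option autoImplicit false

/-!
Tori in the complex points of the open part `F(x) ≠ G(y)` of `C_F × C_G`, and the regulators of the
symbols `{R(x, y), z, w}` for the divisors `R` of `F(X) - G(Y)`.
-/

namespace Pool.Agent.Q212.DC

open Polynomial

open scoped WithZero

open Pool.Agent.TH826.MK (Torus KQ symb pairing circ norm_circ contDiff_circ circ_add_one vf
  Unramified unitPart Good One pairing_prod pairing_const pairing_cons_mul)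

open Pool.Agent.Y775.CC (CRing cp cc cx cz evC evC_cc evC_cx evC_cz Branches contDiff_evC mkL uu
  Mm hfun pairing_hfun good_hfun Mm_neg sum_Mm' Mm_symm exists_branches exists_radius' uu_one_mem'
  uu_mem uu_ne contDiff_branch_uu uu_add_one circ_ne_zero SmoothPts smoothPts)

section points

variable {K : Type*} [Field K] {F G : K[X]} {S : Type*} [Field S]

/-- a point of `C_F` and a point of `C_G` with `F(x) ≠ G(y)` -/
structure PtO (F G : K[X]) (k : K →+* S) (x z y w : S) : Prop where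
  eq1 : z ^ 2 - F.eval₂ k x * z + 1 = 0
  eq2 : w ^ 2 - G.eval₂ k y * w + 1 = 0
  ne : F.eval₂ k x ≠ G.eval₂ k y

variable {k : K →+* S} {x z y w : S}

theorem PtO.isUnit (h : PtO F G k x z y w) :
    IsUnit (evS k x z y w h.eq1 h.eq2 (sdel F G)) := by
  rw [evS_sdel]
  exact (sub_ne_zero.2 h.ne).isUnit

/-- evaluation of the regular functions on the open part of `C_F × C_G` -/
noncomputable def PtO.ev (h : PtO F G k x z y w) : ORing F G →+* S :=
  IsLocalization.Away.lift (sdel F G) h.isUnit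

theorem PtO.ev_toO (h : PtO F G k x z y w) (r : SRing F G) :
    h.ev (toO F G r) = evS k x z y w h.eq1 h.eq2 r :=
  IsLocalization.Away.lift_eq (sdel F G) h.isUnit r

theorem PtO.ev_congr {x' z' y' w' : S} (h : PtO F G k x z y w) (h' : PtO F G k x' z' y' w')
    (e1 : x = x') (e2 : z = z') (e3 : y = y') (e4 : w = w') : h.ev = h'.ev := by
  subst e1
  subst e2
  subst e3
  subst e4
  rfl

end points

section torus

variable {K : Type*} [Field K] {F G : K[X]} {s : K →+* ℂ}

theorem contDiff_ev {d : ℕ} {x z y w : (Fin d → ℝ) → ℂ}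
    (h : ∀ θ, PtO F G s (x θ) (z θ) (y θ) (w θ)) (hx : ContDiff ℝ 2 x) (hz : ContDiff ℝ 2 z)
    (hy : ContDiff ℝ 2 y) (hw : ContDiff ℝ 2 w) (r : ORing F G) :
    ContDiff ℝ 2 fun θ => (h θ).ev r := by
  have hS : ∀ a : SRing F G, ContDiff ℝ 2 fun θ =>
      evS s (x θ) (z θ) (y θ) (w θ) (h θ).eq1 (h θ).eq2 a := by
    intro a
    exact contDiff_evC (G := GF F G) (k := fun θ => evC s (x θ) (z θ) (h θ).eq1)
      (fun θ => evS_eqn s (x θ) (z θ) (y θ) (w θ) (h θ).eq1 (h θ).eq2)
      (fun b => contDiff_evC (fun θ => (h θ).eq1) (fun a => contDiff_const) hx hz b) hy hw a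
  obtain ⟨m, a, ha⟩ := IsLocalization.Away.surj (sdel F G) r
  have e : (fun θ => (h θ).ev r) = fun θ => evS s (x θ) (z θ) (y θ) (w θ) (h θ).eq1 (h θ).eq2 a *
      (evS s (x θ) (z θ) (y θ) (w θ) (h θ).eq1 (h θ).eq2 (sdel F G))⁻¹ ^ m := by
    funext θ
    have h1 := congrArg (h θ).ev ha
    have h2 : (h θ).ev (r * algebraMap (SRing F G) (ORing F G) (sdel F G) ^ m) =
        (h θ).ev r * (h θ).ev (toO F G (sdel F G)) ^ m := by
      rw [map_mul, map_pow]
      rfl
    have h3 : (h θ).ev (algebraMap (SRing F G) (ORing F G) a) = (h θ).ev (toO F G a) := rfl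
    rw [h2, h3, PtO.ev_toO, PtO.ev_toO] at h1
    have h4 := (h θ).isUnit.ne_zero
    rw [← h1, inv_pow, mul_assoc, mul_inv_cancel₀ (pow_ne_zero _ h4), mul_one]
  rw [e]
  exact (hS a).mul (((hS (sdel F G)).inv fun θ => (h θ).isUnit.ne_zero).pow m)

/-- A product torus. -/
noncomputable def mkT {X Z Y W : ℝ → ℂ} (hX : ContDiff ℝ 2 X) (hZ : ContDiff ℝ 2 Z)
    (hY : ContDiff ℝ 2 Y) (hW : ContDiff ℝ 2 W) (pX : ∀ t, X (t + 1) = X t)
    (pZ : ∀ t, Z (t + 1) = Z t) (pY : ∀ t, Y (t + 1) = Y t) (pW : ∀ t, W (t + 1) = W t)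
    (hP : ∀ a b, PtO F G s (X a) (Z a) (Y b) (W b)) : Torus (ORing F G) 2 where
  e θ := (hP (θ 0) (θ 1)).ev
  smooth r := contDiff_ev (x := fun θ => X (θ 0)) (z := fun θ => Z (θ 0))
    (y := fun θ => Y (θ 1)) (w := fun θ => W (θ 1)) (fun θ => hP (θ 0) (θ 1))
    (hX.comp (contDiff_apply ℝ ℝ 0)) (hZ.comp (contDiff_apply ℝ ℝ 0))
    (hY.comp (contDiff_apply ℝ ℝ 1)) (hW.comp (contDiff_apply ℝ ℝ 1)) r
  periodic θ i := by
    have h0 : ∀ (f : ℝ → ℂ), (∀ t, f (t + 1) = f t) → ∀ l : Fin 2,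
        f ((θ + Pi.single i 1 : Fin 2 → ℝ) l) = f (θ l) := by
      intro f hf l
      by_cases hl : l = i
      · rw [hl, Pi.add_apply, Pi.single_eq_same, hf]
      · rw [Pi.add_apply, Pi.single_eq_of_ne hl, add_zero]
    exact PtO.ev_congr _ _ (h0 X pX 0) (h0 Z pZ 0) (h0 Y pY 1) (h0 W pW 1)

end torus

section unram

variable {K : Type*} [Field K] {F G : K[X]}

theorem dvd_of_prod {ι : Type*} [Fintype ι] {R : ι → K[X][X]} (h : ∏ k, R k = dif F G) (k : ι) :
    R k ∣ dif F G := h ▸ Finset.dvd_prod_of_mem R (Finset.mem_univ k)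

/-- The cofactors are monic. -/
theorem exists_cofactor (hF : F.Monic) (hdeg : 0 < F.natDegree) {R : K[X][X]} (hR : R.Monic)
    (h : R ∣ dif F G) : ∃ S : K[X][X], S.Monic ∧ R * S = dif F G := by
  obtain ⟨S, hS⟩ := h
  have hmon : (dif F G).Monic := by
    refine (hF.map C).sub_of_left ?_
    refine degree_C_le.trans_lt ?_
    rw [degree_map_eq_of_injective C_injective]
    exact natDegree_pos_iff_degree_pos.1 hdeg
  exact ⟨S, Monic.of_mul_monic_left hR (by rw [← hS]; exact hmon), hS.symm⟩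

theorem ev2_map {L : Type*} [Field L] (c : K →+* L) (x y : L) (R : K[X][X]) :
    ev2 (RingHom.id L) x y (R.map (mapRingHom c)) = ev2 c x y R := by
  unfold ev2
  rw [Polynomial.eval₂_map]
  congr 1
  refine Polynomial.ringHom_ext (fun a => ?_) ?_
  · simp
  · simp

theorem dif_map {L : Type*} [Field L] (c : K →+* L) :
    (dif F G).map (mapRingHom c) = (F.map c).map C - C (G.map c) := by
  unfold dif
  rw [Polynomial.map_sub, Polynomial.map_C, Polynomial.map_map, Polynomial.map_map,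
    coe_mapRingHom]
  congr 2
  ext a
  simp

/-- The symbols `{R(x, y), z, w}` are unramified at all discrete valuations. -/
theorem symb_ent_mem_unramified {p q d : ℕ} (hF : F.Monic) (hG : G.Monic)
    (hFi : ∀ i, IsIntegral ℤ (F.coeff i)) (hGi : ∀ i, IsIntegral ℤ (G.coeff i))
    (hn : F.natDegree = q * d) (hm : G.natDegree = p * d) (hd : 0 < d) (hp : 0 < p) (hq : 0 < q)
    (hpq : Nat.Coprime p q) (hspl : (X ^ d - 1 : K[X]).Splits) {R : K[X][X]} (hR : R.Monic)
    (hdvd : R ∣ dif F G) {L : Type*} [Field L] (f : ORing F G →+* L) :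
    KQ.map 3 f (symb (ent hdvd)) ∈ Unramified L 3 := by
  rw [KQ.map_symb]
  unfold Unramified
  simp only [Submodule.mem_iInf]
  intro v _
  set c : K →+* L := (f.comp (toO F G)).comp (sk F G) with hc
  have e1 : (fun i => Units.map (f : ORing F G →* L) (ent hdvd i)) =
      ![Units.map (f : ORing F G →* L) (isUnit_rv hdvd).unit,
        Units.map (f : ORing F G →* L) (isUnit_z1 F G).unit,
        Units.map (f : ORing F G →* L) (isUnit_z2 F G).unit] := by
    funext i
    fin_cases i <;> rfl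
  rw [e1]
  have hev : ∀ (p : K[X]) (y : SRing F G), f (toO F G (p.eval₂ (sk F G) y)) =
      (p.map c).eval (f (toO F G y)) := by
    intro p y
    have h1 := Polynomial.hom_eval₂ p (sk F G) (f.comp (toO F G)) y
    rw [Polynomial.eval_map]
    exact h1
  have hint : ∀ P : K[X], (∀ i, IsIntegral ℤ (P.coeff i)) → ∀ i, v ((P.map c).coeff i) ≤ 1 := by
    intro P hP i
    rw [coeff_map]
    exact Pool.Agent.TH826.MK.val_le_one_of_integral v (map_isIntegral_int _ (hP i))
  obtain ⟨S, hS, hRS⟩ := exists_cofactor hF (by rw [hn]; exact Nat.mul_pos hq hd) hR hdvd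
  refine fac_mem_unitPart (x := f (toO F G (x1 F G))) (y := f (toO F G (x2 F G)))
    (R := R.map (mapRingHom c)) (S := S.map (mapRingHom c)) (hF.map c) (hG.map c)
    (hint F hFi) (hint G hGi) ?_ ?_ hd hp hq hpq ?_ (hR.map _) (hS.map _) ?_ ?_ ?_ ?_
  · rw [hF.natDegree_map, hn]
  · rw [hG.natDegree_map, hm]
  · have h1 := hspl.map c
    simpa using h1
  · rw [← Polynomial.map_mul, hRS, dif_map]
  · show f (toO F G (rv F G R)) = _
    rw [ev2_map]
    exact map_ev2 (f.comp (toO F G)) (sk F G) (x1 F G) (x2 F G) R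
  · show f (toO F G (z1 F G)) ^ 2 + 1 = _ * f (toO F G (z1 F G))
    have h1 := congrArg (fun r => f (toO F G r)) (z1_eqn F G)
    simp only [map_add, map_sub, map_mul, map_pow, map_one, map_zero] at h1
    rw [← hev]
    linear_combination h1
  · show f (toO F G (z2 F G)) ^ 2 + 1 = _ * f (toO F G (z2 F G))
    have h1 := congrArg (fun r => f (toO F G r)) (z2_eqn F G)
    simp only [map_add, map_sub, map_mul, map_pow, map_one, map_zero] at h1
    rw [← hev]
    linear_combination h1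

end unram

end Pool.Agent.Q212.DC
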