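import Mathlib
set_option autoImplicit false

/-!
The leading forms of the monic divisors of `P(X) - Q(Y)`.
-/

namespace Pool.Agent.Q212.DC

open Polynomial

section psi

variable {L : Type*} [CommRing L]

/-- The substitution `X ↦ X T^p`, `Y ↦ T^q`. -/
noncomputable def psi (p q : ℕ) : L[X][X] →+* L[X][X] :=
  eval₂RingHom (eval₂RingHom ((C : L[X] →+* L[X][X]).comp C) (X ^ q)) (C X * X ^ p)

theorem psi_monomial (p q i j : ℕ) (a : L) :
    psi p q (monomial i (monomial j a)) = monomial (p * i + q * j) (monomial i a) := by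
  unfold psi
  rw [coe_eval₂RingHom, eval₂_monomial, coe_eval₂RingHom, eval₂_monomial, RingHom.comp_apply,
    mul_pow, ← pow_mul, ← pow_mul, ← C_pow]
  have e : C (C a) * X ^ (q * j) * (C (X ^ i) * X ^ (p * i)) =
      (C (C a * X ^ i) * X ^ (p * i + q * j) : L[X][X]) := by
    rw [map_mul, pow_add]
    ring
  rw [e, C_mul_X_pow_eq_monomial, C_mul_X_pow_eq_monomial]

/-- The coefficients of `R(X T^p, T^q)`. -/
theorem psi_coeff {p q : ℕ} (hq : 0 < q) (R : L[X][X]) :
    (∀ l j, ((psi p q R).coeff (p * l + q * j)).coeff l = (R.coeff l).coeff j) ∧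
    ∀ k l, (∀ j, p * l + q * j ≠ k) → ((psi p q R).coeff k).coeff l = 0 := by
  induction R using Polynomial.induction_on' with
  | add A B hA hB =>
    refine ⟨fun l j => ?_, fun k l h => ?_⟩
    · rw [map_add, coeff_add, coeff_add, hA.1, hB.1, coeff_add, coeff_add]
    · rw [map_add, coeff_add, coeff_add, hA.2 k l h, hB.2 k l h, add_zero]
  | monomial i r =>
    induction r using Polynomial.induction_on' with
    | add a b ha hb =>
      refine ⟨fun l j => ?_, fun k l h => ?_⟩
      · rw [map_add, map_add, coeff_add, coeff_add, ha.1, hb.1, coeff_add, coeff_add]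
      · rw [map_add, map_add, coeff_add, coeff_add, ha.2 k l h, hb.2 k l h, add_zero]
    | monomial m a =>
      rw [psi_monomial]
      refine ⟨fun l j => ?_, fun k l h => ?_⟩
      · rw [coeff_monomial, coeff_monomial]
        by_cases hil : i = l
        · subst hil
          by_cases hmj : m = j
          · subst hmj
            simp
          · rw [if_neg, if_pos rfl, coeff_monomial, if_neg hmj, coeff_zero]
            intro h
            exact hmj (Nat.eq_of_mul_eq_mul_left hq (by omega))
        · rw [if_neg hil, coeff_zero]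
          split_ifs with h1
          · rw [coeff_monomial, if_neg hil]
          · rw [coeff_zero]
      · rw [coeff_monomial]
        split_ifs with h1
        · rw [coeff_monomial]
          split_ifs with h2
          · subst h2
            exact absurd h1 (h m)
          · rfl
        · rw [coeff_zero]

end psi

section top

variable {L : Type*} [Field L]

/-- The coefficients of the monic divisors of `P(X) - Q(Y)`. -/
theorem exists_top {P Q : L[X]} {n m p q : ℕ} (hP : P.Monic) (hQ : Q.Monic)
    (hn : P.natDegree = n) (hm : Q.natDegree = m) (hn0 : 0 < n) (hp : 0 < p) (hq : 0 < q)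
    (h : p * n = q * m) {R S : L[X][X]} (hR : R.Monic) (hS : S.Monic)
    (hRS : R * S = P.map C - C Q) :
    (psi p q R).natDegree = p * R.natDegree ∧
    (psi p q R).leadingCoeff * (psi p q S).leadingCoeff = X ^ n - 1 := by
  have hdeg : R.natDegree + S.natDegree = n := by
    rw [← hR.natDegree_mul hS, hRS]
    rw [natDegree_sub_C, natDegree_map_eq_of_injective C_injective, hn]
  have hD : ∀ i j, ((P.map C - C Q : L[X][X]).coeff i).coeff j =
      (if j = 0 then P.coeff i else 0) - if i = 0 then Q.coeff j else 0 := by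
    intro i j
    rw [coeff_sub, coeff_map, coeff_C, coeff_sub, coeff_C]
    congr 1
    split_ifs
    · rfl
    · rw [coeff_zero]
  have htop : (psi p q (P.map C - C Q)).coeff (p * n) = X ^ n - 1 := by
    ext l
    by_cases hl : ∃ j, p * l + q * j = p * n
    · obtain ⟨j, hj⟩ := hl
      rw [← hj, (psi_coeff hq _).1, hD, coeff_sub, coeff_X_pow, coeff_one]
      congr 1
      · by_cases hj0 : j = 0
        · subst hj0
          have h1 : l = n := Nat.eq_of_mul_eq_mul_left hp (by omega)
          rw [if_pos rfl, if_pos h1, h1, ← hn]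
          exact hP
        · rw [if_neg hj0, if_neg]
          rintro rfl
          have : 0 < q * j := Nat.mul_pos hq (Nat.pos_of_ne_zero hj0)
          omega
      · by_cases hl0 : l = 0
        · subst hl0
          have h1 : j = m := Nat.eq_of_mul_eq_mul_left hq (by omega)
          rw [if_pos rfl, if_pos rfl, h1, ← hm]
          exact hQ
        · rw [if_neg hl0, if_neg hl0]
    · push Not at hl
      rw [(psi_coeff hq _).2 _ l hl, coeff_sub, coeff_X_pow, coeff_one, if_neg, if_neg, sub_zero]
      · rintro rfl
        exact hl m (by omega)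
      · rintro rfl
        exact hl 0 (by omega)
  have hXn : (X ^ n - 1 : L[X]) ≠ 0 := (monic_X_pow_sub_C (1 : L) hn0.ne').ne_zero
  have hle : (psi p q (P.map C - C Q)).natDegree ≤ p * n := by
    rw [natDegree_le_iff_coeff_eq_zero]
    intro k hk
    ext l
    rw [coeff_zero]
    by_cases hl : ∃ j, p * l + q * j = k
    · obtain ⟨j, rfl⟩ := hl
      rw [(psi_coeff hq _).1, hD]
      have h1 : (if j = 0 then P.coeff l else 0) = 0 := by
        split_ifs with hj0
        · subst hj0
          refine coeff_eq_zero_of_natDegree_lt ?_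
          rw [hn]
          refine lt_of_mul_lt_mul_left (a := p) ?_ (Nat.zero_le _)
          omega
        · rfl
      have h2 : (if l = 0 then Q.coeff j else 0) = 0 := by
        split_ifs with hl0
        · subst hl0
          refine coeff_eq_zero_of_natDegree_lt ?_
          rw [hm]
          refine lt_of_mul_lt_mul_left (a := q) ?_ (Nat.zero_le _)
          omega
        · rfl
      rw [h1, h2, sub_zero]
    · push Not at hl
      exact (psi_coeff hq _).2 _ l hl
  have hnd : (psi p q (P.map C - C Q)).natDegree = p * n := by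
    refine le_antisymm hle (le_natDegree_of_ne_zero ?_)
    rw [htop]
    exact hXn
  have hlow : ∀ T : L[X][X], T.Monic → p * T.natDegree ≤ (psi p q T).natDegree := by
    intro T hT
    refine le_natDegree_of_ne_zero fun h0 => ?_
    have h1 := (psi_coeff (p := p) hq T).1 T.natDegree 0
    rw [mul_zero, add_zero, h0, coeff_zero, hT.coeff_natDegree, coeff_one_zero] at h1
    exact one_ne_zero h1.symm
  have hne : ∀ T : L[X][X], T.Monic → psi p q T ≠ 0 := by
    intro T hT h0
    have h1 := (psi_coeff (p := p) hq T).1 T.natDegree 0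
    rw [mul_zero, add_zero, h0, coeff_zero, coeff_zero, hT.coeff_natDegree, coeff_one_zero] at h1
    exact one_ne_zero h1.symm
  have hmul : psi p q R * psi p q S = psi p q (P.map C - C Q) := by rw [← map_mul, hRS]
  have hsum : (psi p q R).natDegree + (psi p q S).natDegree = p * n := by
    rw [← natDegree_mul (hne R hR) (hne S hS), hmul, hnd]
  constructor
  · have h1 := hlow R hR
    have h2 := hlow S hS
    have h3 : p * R.natDegree + p * S.natDegree = p * n := by rw [← mul_add, hdeg]
    omega
  · rw [← leadingCoeff_mul, hmul, leadingCoeff, hnd, htop]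

theorem exists_contract {q : ℕ} (hq : 0 < q) {τ : L[X]} (h : ∀ i, τ.coeff i ≠ 0 → q ∣ i) :
    expand L q (contract q τ) = τ := by
  ext i
  rw [coeff_expand hq]
  split_ifs with h1
  · rw [coeff_contract hq.ne', Nat.div_mul_cancel h1]
  · by_contra h2
    exact h1 (h i (Ne.symm h2))

/-- The leading forms of the monic divisors `R` of `P(X) - Q(Y)`, where the degrees of `P` and `Q`
are `q d` and `p d`, `p` and `q` coprime: the weight of `X^i Y^j` is `p i + q j`, and the form of
highest weight is `∑_l τ_l X^(q l) Y^(p (b - l))`, with a divisor `τ` of `X^d - 1` of degree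
`b`. -/
theorem exists_form {P Q : L[X]} {d p q : ℕ} (hP : P.Monic) (hQ : Q.Monic)
    (hn : P.natDegree = q * d) (hm : Q.natDegree = p * d) (hd : 0 < d) (hp : 0 < p) (hq : 0 < q)
    (hpq : Nat.Coprime p q) {R S : L[X][X]} (hR : R.Monic) (hS : S.Monic)
    (hRS : R * S = P.map C - C Q) :
    ∃ τ : L[X], τ.Monic ∧ τ ∣ X ^ d - 1 ∧ R.natDegree = q * τ.natDegree ∧
      (∀ i j, (R.coeff i).coeff j ≠ 0 → p * i + q * j ≤ p * (q * τ.natDegree)) ∧
      (∀ i j, p * i + q * j = p * (q * τ.natDegree) → (R.coeff i).coeff j ≠ 0 →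
        ∃ l ≤ τ.natDegree, i = q * l ∧ j = p * (τ.natDegree - l)) ∧
      ∀ l ≤ τ.natDegree, (R.coeff (q * l)).coeff (p * (τ.natDegree - l)) = τ.coeff l := by
  have hn0 : 0 < q * d := Nat.mul_pos hq hd
  have key : ∀ {R S : L[X][X]}, R.Monic → S.Monic → R * S = P.map C - C Q →
      (∀ i j, (R.coeff i).coeff j ≠ 0 → p * i + q * j ≤ p * R.natDegree) ∧
      (∀ i, (psi p q R).leadingCoeff.coeff i ≠ 0 → q ∣ i) ∧ q ∣ R.natDegree ∧
      (psi p q R).leadingCoeff.natDegree = R.natDegree ∧
      (psi p q R).leadingCoeff.Monic ∧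
      (∀ i j, p * i + q * j = p * R.natDegree →
        (psi p q R).leadingCoeff.coeff i = (R.coeff i).coeff j) ∧
      (psi p q R).leadingCoeff * (psi p q S).leadingCoeff = X ^ (q * d) - 1 := by
    intro R S hR hS hRS
    obtain ⟨h1, h2⟩ := exists_top hP hQ hn hm hn0 hp hq (by ring) hR hS hRS
    have h3 : ∀ i j, p * i + q * j = p * R.natDegree →
        (psi p q R).leadingCoeff.coeff i = (R.coeff i).coeff j := by
      intro i j hij
      rw [leadingCoeff, h1, ← hij, (psi_coeff hq R).1]
    have hdvd0 : ∀ i, (psi p q R).leadingCoeff.coeff i ≠ 0 →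
        ∃ j, p * i + q * j = p * R.natDegree := by
      intro i hi
      by_contra hcon
      push Not at hcon
      apply hi
      rw [leadingCoeff, h1]
      exact (psi_coeff hq R).2 _ i hcon
    have hc0 : (psi p q R).leadingCoeff.coeff 0 ≠ 0 := by
      intro h0
      have h4 := congrArg (fun t : L[X] => t.coeff 0) h2
      simp only [mul_coeff_zero, h0, zero_mul, coeff_sub, coeff_one_zero, coeff_X_pow,
        if_neg hn0.ne, zero_sub] at h4
      exact one_ne_zero (neg_eq_zero.1 h4.symm)
    have hqR : q ∣ R.natDegree := by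
      obtain ⟨j, hj⟩ := hdvd0 0 hc0
      have h5 : q ∣ p * R.natDegree := ⟨j, by omega⟩
      exact (Nat.Coprime.symm hpq).dvd_of_dvd_mul_left h5
    have hq' : ∀ i, (psi p q R).leadingCoeff.coeff i ≠ 0 → q ∣ i := by
      intro i hi
      obtain ⟨j, hj⟩ := hdvd0 i hi
      have h5 : q ∣ p * i := by
        have h6 : q ∣ p * i + q * j := by
          rw [hj]
          exact hqR.mul_left p
        exact (Nat.dvd_add_left (dvd_mul_right q j)).1 h6
      exact (Nat.Coprime.symm hpq).dvd_of_dvd_mul_left h5
    have hnd : (psi p q R).leadingCoeff.natDegree = R.natDegree := by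
      refine le_antisymm ?_ (le_natDegree_of_ne_zero ?_)
      · rw [natDegree_le_iff_coeff_eq_zero]
        intro i hi
        by_contra h0
        obtain ⟨j, hj⟩ := hdvd0 i h0
        have h6 := Nat.mul_lt_mul_of_pos_left hi hp
        omega
      · rw [h3 R.natDegree 0 (by omega), hR.coeff_natDegree, coeff_one_zero]
        exact one_ne_zero
    refine ⟨fun i j hij => ?_, hq', hqR, hnd, ?_, h3, h2⟩
    · rw [← h1]
      refine le_natDegree_of_ne_zero fun h0 => hij ?_
      rw [← (psi_coeff hq R).1, h0, coeff_zero]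
    · rw [Monic, leadingCoeff, hnd, h3 R.natDegree 0 (by omega), hR.coeff_natDegree,
        coeff_one_zero]
  obtain ⟨a1, a2, a3, a4, a5, a6, a7⟩ := key hR hS hRS
  obtain ⟨-, b2, -, -, -, -, -⟩ := key hS hR (by rw [mul_comm]; exact hRS)
  set τ := contract q (psi p q R).leadingCoeff with hτ
  set σ := contract q (psi p q S).leadingCoeff with hσ
  have e1 : expand L q τ = (psi p q R).leadingCoeff := exists_contract hq a2
  have e2 : expand L q σ = (psi p q S).leadingCoeff := exists_contract hq b2
  have hmul : τ * σ = X ^ d - 1 := by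
    refine expand_injective hq ?_
    rw [map_mul, e1, e2, a7, map_sub, map_one, map_pow, expand_X, ← pow_mul]
  have hnd : R.natDegree = q * τ.natDegree := by
    rw [← a4, ← e1, natDegree_expand, mul_comm]
  have hcoef : ∀ l, τ.coeff l = (psi p q R).leadingCoeff.coeff (q * l) := by
    intro l
    rw [← e1, mul_comm, coeff_expand_mul hq]
  refine ⟨τ, ?_, ⟨σ, hmul.symm⟩, hnd, ?_, ?_, ?_⟩
  · rw [← (monic_expand_iff (p := q) hq), e1]
    exact a5
  · intro i j hij
    rw [← hnd]
    exact a1 i j hij
  · intro i j hij hne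
    rw [← hnd] at hij
    have h1 := a6 i j hij
    obtain ⟨l, rfl⟩ := a2 i (by rw [h1]; exact hne)
    have hle : l ≤ τ.natDegree := by
      have h2 : q * l ≤ q * τ.natDegree := by
        rw [← hnd]
        have h3 : p * (q * l) ≤ p * R.natDegree := by omega
        exact Nat.le_of_mul_le_mul_left h3 hp
      exact Nat.le_of_mul_le_mul_left h2 hq
    refine ⟨l, hle, rfl, ?_⟩
    obtain ⟨t, ht⟩ := Nat.exists_eq_add_of_le hle
    rw [hnd, ht] at hij
    rw [ht, Nat.add_sub_cancel_left]
    refine Nat.eq_of_mul_eq_mul_left hq ?_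
    have h4 : p * (q * (l + t)) = p * (q * l) + q * (p * t) := by ring
    omega
  · intro l hl
    rw [hcoef, a6]
    obtain ⟨t, ht⟩ := Nat.exists_eq_add_of_le hl
    rw [hnd, ht, Nat.add_sub_cancel_left]
    ring

end top

end Pool.Agent.Q212.DC
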