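import Pool.Agent.Q212.DC.Top
import Pool.Agent.Q212.DC.Ring
import Pool.Agent.Y775.CC.Unram
set_option autoImplicit false

/-!
The symbol `{R(x, y), z, w}` with `z + 1/z = P(x)`, `w + 1/w = Q(y)`, where `R` is a monic divisor
of `P(X) - Q(Y)`, is unramified.
-/

namespace Pool.Agent.Q212.DC

open scoped WithZero

open Polynomial

open Pool.Agent.TH826.MK (symb unitPart symb_update_mul symb_update_zpow
  mem_unitPart_of_oneUnit' mem_unitPart_of_pow val_one_of_sub_one)

open Pool.Agent.Y775.CC (upd0 upd1 upd2 s_mul0 s_mul1 s_mul2 s_neg0 s_zpow1 s_zpow2 s_inv1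
  s_self01 s_self12 s_self02 s_one0 s_one1 s_one2 s_unit s_diff val_eval_le_one val_eval_div
  val_z_eq_one)

variable {L : Type*} [Field L] (v : Valuation L ℤᵐ⁰)

section ou

/-- one-units -/
def OU (g : Lˣ) : Prop := v ((g : L) - 1) < 1

variable {v}

theorem OU.val {g : Lˣ} (h : OU v g) : v (g : L) = 1 := val_one_of_sub_one h

theorem OU.mul {g g' : Lˣ} (h : OU v g) (h' : OU v g') : OU v (g * g') := by
  have e : ((g * g' : Lˣ) : L) - 1 = ((g : L) - 1) * g' + ((g' : L) - 1) := by
    rw [Units.val_mul]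
    ring
  unfold OU
  rw [e]
  refine (v.map_add _ _).trans_lt (max_lt ?_ h')
  rw [map_mul, h'.val, mul_one]
  exact h

theorem OU.inv {g : Lˣ} (h : OU v g) : OU v g⁻¹ := by
  have e : ((g⁻¹ : Lˣ) : L) - 1 = -(((g : L) - 1) * (g : L)⁻¹) := by
    rw [Units.val_inv_eq_inv_val]
    have := g.ne_zero
    field_simp
    ring
  unfold OU
  rw [e, Valuation.map_neg, map_mul, map_inv₀, h.val, inv_one, mul_one]
  exact h

theorem OU.one : OU v (1 : Lˣ) := by
  unfold OU
  simp

end ou

section symbols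

theorem s_zpow0 (a b c : Lˣ) (k : ℤ) : symb ![a ^ k, b, c] = (k : ℚ) • symb ![a, b, c] := by
  have h := symb_update_zpow ![a, b, c] 0 a k
  rwa [upd0, upd0] at h

theorem s_pow0 (a b c : Lˣ) (k : ℕ) : symb ![a ^ k, b, c] = (k : ℚ) • symb ![a, b, c] := by
  have h := s_zpow0 a b c k
  rwa [zpow_natCast, Int.cast_natCast] at h

theorem s_pow1 (a b c : Lˣ) (k : ℕ) : symb ![a, b ^ k, c] = (k : ℚ) • symb ![a, b, c] := by
  have h := s_zpow1 a b c k
  rwa [zpow_natCast, Int.cast_natCast] at h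

theorem s_pow2 (a b c : Lˣ) (k : ℕ) : symb ![a, b, c ^ k] = (k : ℚ) • symb ![a, b, c] := by
  have h := s_zpow2 a b c k
  rwa [zpow_natCast, Int.cast_natCast] at h

theorem s_one2' (a b : Lˣ) : symb ![a, b, 1] = 0 := by
  have h := s_pow2 a b 1 0
  rwa [pow_zero, Nat.cast_zero, zero_smul] at h

theorem s_one0' (b c : Lˣ) : symb ![1, b, c] = 0 := by
  have h := s_pow0 1 b c 0
  rwa [pow_zero, Nat.cast_zero, zero_smul] at h

/-- `{x^q - ζ y^p, x, y} = 0` for a root of unity `ζ` -/
theorem s_diff_pow {x y h : Lˣ} {p q d : ℕ} (hp : 0 < p) (hq : 0 < q) (hd : 0 < d) {ζ : L}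
    (hζ : ζ ^ d = 1) (hh : (h : L) = (x : L) ^ q - ζ * (y : L) ^ p) : symb ![h, x, y] = 0 := by
  have hζ0 : ζ ≠ 0 := by
    rintro rfl
    rw [zero_pow hd.ne'] at hζ
    exact zero_ne_one hζ
  set ξ : Lˣ := Units.mk0 ζ hζ0 with hξ
  have hξd : ξ ^ d = 1 := by
    apply Units.ext
    rw [Units.val_pow_eq_pow_val, hξ, Units.val_mk0, hζ, Units.val_one]
  have h1 : symb ![h, x ^ q, ξ * y ^ p] = 0 := by
    refine s_diff ?_
    rw [hh]
    simp [hξ]
  have h2 : symb ![h, x ^ q, ξ] = 0 := by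
    have h3 := s_pow2 h (x ^ q) ξ d
    rw [hξd, s_one2'] at h3
    have h4 : (d : ℚ) ≠ 0 := by exact_mod_cast hd.ne'
    exact (smul_eq_zero.1 h3.symm).resolve_left h4
  rw [s_mul2, h2, zero_add, s_pow1, s_pow2, smul_smul] at h1
  have h4 : ((q : ℚ) * (p : ℚ)) ≠ 0 := by
    have h5 : (q : ℚ) ≠ 0 := by exact_mod_cast hq.ne'
    have h6 : (p : ℚ) ≠ 0 := by exact_mod_cast hp.ne'
    exact mul_ne_zero h5 h6
  exact (smul_eq_zero.1 h1).resolve_left h4

end symbols

section poly

variable {v}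

/-- Near infinity, `z` or `1/z` is `x^n` times a one-unit. -/
theorem exists_sign {P : L[X]} (hP : P.Monic) (hPv : ∀ i, v (P.coeff i) ≤ 1) {x z : Lˣ}
    (hdeg : 0 < P.natDegree) (hx : 1 < v (x : L)) (hz : (z : L) ^ 2 + 1 = P.eval (x : L) * z) :
    ∃ (k : ℤ) (u : Lˣ), (k = P.natDegree ∨ k = -P.natDegree) ∧ z = x ^ k * u ∧ OU v u := by
  have h1 := val_eval_div hP hPv hx
  have h2 := val_one_of_sub_one h1
  have hx0 := x.ne_zero
  have hz0 := z.ne_zero
  have hPx : 1 < v (P.eval (x : L)) := by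
    have h3 : v (P.eval (x : L)) = v (x : L) ^ P.natDegree := by
      rw [map_div₀, map_pow] at h2
      exact (div_eq_one_iff_eq (pow_ne_zero _ (zero_lt_one.trans hx).ne')).1 h2
    rw [h3]
    exact one_lt_pow₀ hx (by omega)
  have hPx0 : P.eval (x : L) ≠ 0 := by
    intro h
    rw [h, map_zero] at hPx
    exact absurd hPx (not_lt.2 zero_le_one)
  set n : ℕ := P.natDegree with hn
  have hmul : ∀ a b : L, v (a - 1) < 1 → v (b - 1) < 1 → v (a * b - 1) < 1 := by
    intro a b ha hb
    have e : a * b - 1 = (a - 1) * b + (b - 1) := by ring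
    rw [e]
    refine (v.map_add _ _).trans_lt (max_lt ?_ hb)
    rw [map_mul, val_one_of_sub_one hb, mul_one]
    exact ha
  have hinv : ∀ a : L, v (a - 1) < 1 → v (a⁻¹ - 1) < 1 := by
    intro a ha
    have ha1 := val_one_of_sub_one ha
    have ha0 : a ≠ 0 := by
      rintro rfl
      rw [map_zero] at ha1
      exact zero_ne_one ha1
    have e : a⁻¹ - 1 = -((a - 1) * a⁻¹) := by
      field_simp
      ring
    rw [e, Valuation.map_neg, map_mul, map_inv₀, ha1, inv_one, mul_one]
    exact ha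
  rcases lt_trichotomy (v (z : L)) 1 with hlt | heq | hgt
  · refine ⟨-(n : ℤ), z * x ^ (n : ℤ), Or.inr rfl, ?_, ?_⟩
    · rw [zpow_neg, mul_comm z, inv_mul_cancel_left]
    · have e1 : ((z * x ^ (n : ℤ) : Lˣ) : L) = (P.eval (x : L) / (x : L) ^ n)⁻¹ *
          (1 + (z : L) ^ 2) := by
        rw [Units.val_mul, zpow_natCast, Units.val_pow_eq_pow_val, inv_div, add_comm, hz]
        field_simp
      unfold OU
      rw [e1]
      refine hmul _ _ (hinv _ h1) ?_
      rw [add_sub_cancel_left, map_pow]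
      exact pow_lt_one₀ zero_le hlt (by norm_num)
  · exfalso
    have h3 : v ((z : L) ^ 2 + 1) ≤ 1 := by
      refine (v.map_add _ _).trans (max_le ?_ ?_)
      · rw [map_pow, heq, one_pow]
      · rw [map_one]
    rw [hz, map_mul, heq, mul_one] at h3
    exact absurd hPx (not_lt.2 h3)
  · refine ⟨(n : ℤ), z * x ^ (-(n : ℤ)), Or.inl rfl, ?_, ?_⟩
    · rw [zpow_neg, mul_comm z, mul_inv_cancel_left]
    · have e1 : ((z * x ^ (-(n : ℤ)) : Lˣ) : L) = (P.eval (x : L) / (x : L) ^ n) *
          (1 + ((z : L)⁻¹) ^ 2)⁻¹ := by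
        have h4 : (z : L) ^ 2 + 1 ≠ 0 := by
          rw [hz]
          exact mul_ne_zero hPx0 hz0
        have h5 : 1 + ((z : L)⁻¹) ^ 2 = ((z : L) ^ 2 + 1) / (z : L) ^ 2 := by
          field_simp
        rw [Units.val_mul, zpow_neg, zpow_natCast, Units.val_inv_eq_inv_val,
          Units.val_pow_eq_pow_val, h5, inv_div, hz]
        field_simp
      unfold OU
      rw [e1]
      refine hmul _ _ h1 (hinv _ ?_)
      rw [add_sub_cancel_left, map_pow, map_inv₀]
      exact pow_lt_one₀ zero_le (inv_lt_one_of_one_lt₀ hgt) (by norm_num)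

/-- Values of polynomials in two variables. -/
theorem val_ev2_lt {T : L[X][X]} {x y : L} {B : ℤᵐ⁰} (hB : B ≠ 0)
    (h : ∀ i j, (T.coeff i).coeff j ≠ 0 → v ((T.coeff i).coeff j) * v x ^ i * v y ^ j < B) :
    v (ev2 (RingHom.id L) x y T) < B := by
  unfold ev2
  rw [Polynomial.eval₂_eq_sum_range]
  refine Valuation.map_sum_lt v hB fun i _ => ?_
  rw [coe_eval₂RingHom, Polynomial.eval₂_eq_sum_range, Finset.sum_mul]
  refine Valuation.map_sum_lt v hB fun j _ => ?_
  by_cases h0 : (T.coeff i).coeff j = 0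
  · rw [h0, map_zero, zero_mul, zero_mul, map_zero]
    exact (zero_le).lt_of_ne (Ne.symm hB)
  · have h1 := h i j h0
    rw [map_mul, map_mul, map_pow, map_pow, RingHom.id_apply]
    rwa [mul_right_comm] at h1

theorem val_ev2_le {T : L[X][X]} {x y : L} (hx : v x ≤ 1) (hy : v y ≤ 1)
    (h : ∀ i j, v ((T.coeff i).coeff j) ≤ 1) : v (ev2 (RingHom.id L) x y T) ≤ 1 := by
  unfold ev2
  rw [Polynomial.eval₂_eq_sum_range]
  refine Valuation.map_sum_le v fun i _ => ?_
  rw [coe_eval₂RingHom, Polynomial.eval₂_eq_sum_range, Finset.sum_mul]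
  refine Valuation.map_sum_le v fun j _ => ?_
  rw [map_mul, map_mul, map_pow, map_pow, RingHom.id_apply]
  exact mul_le_one' (mul_le_one' (h i j) (pow_le_one' hy _)) (pow_le_one' hx _)

theorem ev2_sub' {S : Type*} [CommRing S] (k : L →+* S) (x y : S) (R T : L[X][X]) :
    ev2 k x y (R - T) = ev2 k x y R - ev2 k x y T := Polynomial.eval₂_sub _

theorem ev2_monomial {S : Type*} [CommRing S] (k : L →+* S) (x y : S) (i j : ℕ) (a : L) :
    ev2 k x y (monomial i (monomial j a)) = k a * y ^ j * x ^ i := by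
  unfold ev2
  rw [eval₂_monomial, coe_eval₂RingHom, eval₂_monomial]

/-- The coefficients of monic divisors are integral. -/
theorem val_coeff_le {P Q : L[X]} (hP : P.Monic) (hPd : 0 < P.natDegree)
    (hPv : ∀ i, v (P.coeff i) ≤ 1) (hQv : ∀ i, v (Q.coeff i) ≤ 1) {R : L[X][X]} (hR : R.Monic)
    (h : R ∣ P.map C - C Q) (i j : ℕ) : v ((R.coeff i).coeff j) ≤ 1 := by
  let _ : Algebra v.valuationSubring[X] L[X] := Polynomial.algebra v.valuationSubring L
  have hlift : ∀ T : L[X], (∀ i, v (T.coeff i) ≤ 1) →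
      ∃ T' : v.valuationSubring[X], T'.map (algebraMap v.valuationSubring L) = T := by
    intro T hT
    have h1 : T ∈ lifts (algebraMap v.valuationSubring L) := by
      rw [lifts_iff_coeff_lifts]
      intro i
      exact ⟨⟨T.coeff i, hT i⟩, rfl⟩
    exact (mem_lifts _).1 h1
  obtain ⟨P', hP'⟩ := hlift P hPv
  obtain ⟨Q', hQ'⟩ := hlift Q hQv
  have hinj : Function.Injective (algebraMap v.valuationSubring L) :=
    IsFractionRing.injective v.valuationSubring L
  have hP'm : P'.Monic := monic_of_injective hinj (by rw [hP']; exact hP)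
  have hP'd : 0 < P'.natDegree := by rwa [← natDegree_map_eq_of_injective hinj, hP']
  have hmon : (P'.map C - C Q' : v.valuationSubring[X][X]).Monic := by
    refine (hP'm.map C).sub_of_left ?_
    refine degree_C_le.trans_lt ?_
    rw [degree_map_eq_of_injective C_injective]
    exact natDegree_pos_iff_degree_pos.1 hP'd
  have hmap : (P'.map C - C Q' : v.valuationSubring[X][X]).map
      (algebraMap v.valuationSubring[X] L[X]) = P.map C - C Q := by
    rw [Polynomial.map_sub, Polynomial.map_C, Polynomial.map_map]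
    have e1 : algebraMap v.valuationSubring[X] L[X] Q' = Q := hQ'
    have e2 : (algebraMap v.valuationSubring[X] L[X]).comp C =
        (C : L →+* L[X]).comp (algebraMap v.valuationSubring L) := by
      ext a
      have e3 : algebraMap v.valuationSubring[X] L[X] (C a) =
          (C a : v.valuationSubring[X]).map (algebraMap v.valuationSubring L) := rfl
      rw [RingHom.comp_apply, e3, Polynomial.map_C]
      rfl
    rw [e1, e2, ← Polynomial.map_map, hP']
  have h1 := isIntegral_coeff_of_dvd (P'.map C - C Q' : v.valuationSubring[X][X]) R hmon hR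
    (by rw [hmap]; exact h) i
  have h2 : IsIntegral v.valuationSubring ((R.coeff i).coeff j) := h1.coeff j
  exact (Valuation.valuationSubring.integers v).mem_of_integral h2

end poly

end Pool.Agent.Q212.DC
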